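import Mathlib

/-!
Closures in expanding hypergraphs with ordered blocks.
-/

set_option linter.unusedSectionVars false
set_option linter.unusedSimpArgs false

namespace Pool.Agent.W939.PC

open Finset

variable {B P V : Type} [Fintype B] [DecidableEq B] [Fintype P] [DecidableEq P]
variable [Fintype V] [DecidableEq V] (pos : B → P → V)

/-- Vertices of the blocks in `T`. -/
def vert (T : Finset B) : Finset V := (T ×ˢ (univ : Finset P)).image (fun x => pos x.1 x.2)

theorem mem_vert {T : Finset B} {v : V} : v ∈ vert pos T ↔ ∃ b ∈ T, ∃ p, pos b p = v := by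
  simp only [vert, mem_image, mem_product, mem_univ, and_true, Prod.exists]
  constructor
  · rintro ⟨b, p, hb, rfl⟩; exact ⟨b, hb, p, rfl⟩
  · rintro ⟨b, hb, p, rfl⟩; exact ⟨b, p, hb, rfl⟩

theorem vert_mono {T T' : Finset B} (h : T ⊆ T') : vert pos T ⊆ vert pos T' := by
  intro v hv
  rw [mem_vert] at hv ⊢
  obtain ⟨b, hb, p, hp⟩ := hv
  exact ⟨b, h hb, p, hp⟩

/-- Free positions of the block `b`. -/
def fr (S : Finset V) (T : Finset B) (b : B) : Finset P :=
  univ.filter (fun p => pos b p ∉ S ∧ ∀ b' ∈ T, ∀ p', pos b' p' = pos b p → b' = b ∧ p' = p)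

theorem mem_fr {S : Finset V} {T : Finset B} {b : B} {p : P} :
    p ∈ fr pos S T b ↔ pos b p ∉ S ∧ ∀ b' ∈ T, ∀ p', pos b' p' = pos b p → b' = b ∧ p' = p := by
  simp [fr]

theorem fr_anti {S S' : Finset V} {T T' : Finset B} (hS : S ⊆ S') (hT : T ⊆ T') (b : B) :
    fr pos S' T' b ⊆ fr pos S T b := by
  intro p hp
  rw [mem_fr] at hp ⊢
  exact ⟨fun h => hp.1 (hS h), fun b' hb' p' h => hp.2 b' (hT hb') p' h⟩

/-- `T` is contained: no block has `h` free positions. -/
def Ctd (h : ℕ) (S : Finset V) (T : Finset B) : Prop := ∀ b ∈ T, (fr pos S T b).card < h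

/-- Expansion of the families of at most `s` blocks. -/
def Expd (s : ℕ) : Prop := ∀ T : Finset B, T.card ≤ s →
  4 * (Fintype.card P * T.card) ≤ 4 * (vert pos T).card + 5 * T.card

theorem count (S : Finset V) (T : Finset B) :
    2 * (vert pos T).card ≤ Fintype.card P * T.card + S.card + ∑ b ∈ T, (fr pos S T b).card := by
  classical
  let Q : Finset (B × P) := T ×ˢ (univ : Finset P)
  let FQ : Finset (B × P) := Q.filter (fun x => x.2 ∈ fr pos S T x.1)
  have hQ : Q.card = Fintype.card P * T.card := by
    simp only [Q, card_product, card_univ]; ring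
  have hQf : Q.card = ∑ v ∈ vert pos T, (Q.filter (fun x => pos x.1 x.2 = v)).card := by
    apply Finset.card_eq_sum_card_fiberwise
    intro x hx
    rw [mem_coe] at hx ⊢
    rw [mem_vert]
    exact ⟨x.1, (mem_product.1 hx).1, x.2, rfl⟩
  have hFQf : FQ.card = ∑ v ∈ vert pos T, (FQ.filter (fun x => pos x.1 x.2 = v)).card := by
    apply Finset.card_eq_sum_card_fiberwise
    intro x hx
    rw [mem_coe] at hx ⊢
    rw [mem_vert]
    exact ⟨x.1, (mem_product.1 (mem_filter.1 hx).1).1, x.2, rfl⟩
  have hFQ : FQ.card = ∑ b ∈ T, (fr pos S T b).card := by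
    have h1 : FQ.card = ∑ b ∈ T, (FQ.filter (fun x => x.1 = b)).card := by
      apply Finset.card_eq_sum_card_fiberwise
      intro x hx
      rw [mem_coe] at hx ⊢
      exact (mem_product.1 (mem_filter.1 hx).1).1
    rw [h1]
    apply Finset.sum_congr rfl
    intro b hb
    have : FQ.filter (fun x => x.1 = b) = (fr pos S T b).image (fun p => (b, p)) := by
      ext ⟨b', p⟩
      simp only [FQ, Q, mem_filter, mem_product, mem_univ, and_true, mem_image, Prod.mk.injEq]
      constructor
      · rintro ⟨⟨h1, h2⟩, rfl⟩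
        exact ⟨p, h2, rfl, rfl⟩
      · rintro ⟨p', h1, rfl, rfl⟩
        exact ⟨⟨hb, h1⟩, rfl⟩
    rw [this, Finset.card_image_of_injective]
    intro p p' h
    exact (Prod.mk.inj h).2
  have hpt : ∀ v ∈ vert pos T, 2 ≤ (Q.filter (fun x => pos x.1 x.2 = v)).card +
      (if v ∈ S then 1 else 0) + (FQ.filter (fun x => pos x.1 x.2 = v)).card := by
    intro v hv
    obtain ⟨b, hb, p, hp⟩ := (mem_vert pos).1 hv
    have hmem : (b, p) ∈ Q.filter (fun x => pos x.1 x.2 = v) := by
      rw [mem_filter]
      exact ⟨mem_product.2 ⟨hb, mem_univ _⟩, hp⟩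
    by_cases h2 : 2 ≤ (Q.filter (fun x => pos x.1 x.2 = v)).card
    · omega
    · have h1 : (Q.filter (fun x => pos x.1 x.2 = v)).card = 1 := by
        have : 0 < (Q.filter (fun x => pos x.1 x.2 = v)).card := Finset.card_pos.2 ⟨_, hmem⟩
        omega
      by_cases hS : v ∈ S
      · rw [h1, if_pos hS]; omega
      · have : (b, p) ∈ FQ.filter (fun x => pos x.1 x.2 = v) := by
          rw [mem_filter]
          refine ⟨?_, hp⟩
          rw [mem_filter]
          refine ⟨mem_product.2 ⟨hb, mem_univ _⟩, ?_⟩
          rw [mem_fr]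
          refine ⟨by rw [hp]; exact hS, ?_⟩
          intro b' hb' p' hbp
          obtain ⟨x, hx⟩ := Finset.card_eq_one.1 h1
          have e1 : (b, p) = x := by
            have := hmem; rw [hx] at this; exact mem_singleton.1 this
          have e2 : (b', p') = x := by
            have : (b', p') ∈ Q.filter (fun x => pos x.1 x.2 = v) := by
              rw [mem_filter]
              exact ⟨mem_product.2 ⟨hb', mem_univ _⟩, by rw [hbp, hp]⟩
            rw [hx] at this; exact mem_singleton.1 this
          have e3 : (b', p') = (b, p) := by rw [e1, e2]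
          exact ⟨(Prod.mk.inj e3).1, (Prod.mk.inj e3).2⟩
        have h3 : 0 < (FQ.filter (fun x => pos x.1 x.2 = v)).card := Finset.card_pos.2 ⟨_, this⟩
        rw [h1]; omega
  have hsum := Finset.sum_le_sum hpt
  rw [Finset.sum_add_distrib, Finset.sum_add_distrib, ← hQf, ← hFQf, hQ, hFQ] at hsum
  rw [Finset.sum_const, smul_eq_mul] at hsum
  have hS : ∑ v ∈ vert pos T, (if v ∈ S then 1 else 0) ≤ S.card := by
    rw [Finset.sum_ite_mem, Finset.sum_const, smul_eq_mul, mul_one]
    exact Finset.card_le_card Finset.inter_subset_right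
  rw [mul_comm]
  omega

theorem ctd_card {s : ℕ} (hE : Expd pos s) {S : Finset V} {T : Finset B} (hT : T.card ≤ s)
    (hC : Ctd pos (Fintype.card P - 2) S T) : T.card ≤ 2 * S.card := by
  have h1 := count pos S T
  have h2 := hE T hT
  have h3 : ∑ b ∈ T, (fr pos S T b).card + 3 * T.card ≤ Fintype.card P * T.card := by
    have : ∑ b ∈ T, ((fr pos S T b).card + 3) ≤ ∑ _b ∈ T, Fintype.card P := by
      apply Finset.sum_le_sum
      intro b hb
      have := hC b hb
      omega
    rw [Finset.sum_add_distrib, Finset.sum_const, Finset.sum_const, smul_eq_mul,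
      smul_eq_mul] at this
    nlinarith
  omega

/-- The closure of a set of vertices. -/
noncomputable def cl (h s : ℕ) (S : Finset V) : Finset B := by
  classical
  exact ((univ : Finset (Finset B)).filter (fun T => T.card ≤ s ∧ Ctd pos h S T)).biUnion id

theorem subset_cl {h s : ℕ} {S : Finset V} {T : Finset B} (hT : T.card ≤ s)
    (hC : Ctd pos h S T) : T ⊆ cl pos h s S := by
  classical
  intro b hb
  unfold cl
  rw [mem_biUnion]
  exact ⟨T, by simp [hT, hC], hb⟩

theorem ctd_union {h : ℕ} {S : Finset V} {T T' : Finset B} (hT : Ctd pos h S T)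
    (hT' : Ctd pos h S T') : Ctd pos h S (T ∪ T') := by
  intro b hb
  rcases mem_union.1 hb with h1 | h1
  · exact lt_of_le_of_lt (card_le_card (fr_anti pos (subset_refl _) subset_union_left b)) (hT b h1)
  · exact lt_of_le_of_lt (card_le_card (fr_anti pos (subset_refl _) subset_union_right b))
      (hT' b h1)

theorem cl_spec {s : ℕ} (hE : Expd pos s) {S : Finset V} (hS : 4 * S.card ≤ s) :
    Ctd pos (Fintype.card P - 2) S (cl pos (Fintype.card P - 2) s S) ∧
      (cl pos (Fintype.card P - 2) s S).card ≤ 2 * S.card := by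
  classical
  unfold cl
  have key : ∀ F : Finset (Finset B), F ⊆ (univ : Finset (Finset B)).filter
      (fun T => T.card ≤ s ∧ Ctd pos (Fintype.card P - 2) S T) →
      Ctd pos (Fintype.card P - 2) S (F.biUnion id) ∧ (F.biUnion id).card ≤ 2 * S.card := by
    intro F
    induction F using Finset.induction_on with
    | empty =>
      intro _
      simp [Ctd]
    | insert T F hT ih =>
      intro hF
      have h1 := ih (fun x hx => hF (mem_insert_of_mem hx))
      have h2 := hF (mem_insert_self T F)
      rw [mem_filter] at h2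
      have h3 : T.card ≤ 2 * S.card := ctd_card pos hE h2.2.1 h2.2.2
      rw [Finset.biUnion_insert, id]
      have h4 := ctd_union pos h2.2.2 h1.1
      refine ⟨h4, ?_⟩
      apply ctd_card pos hE _ h4
      have := Finset.card_union_le T (F.biUnion id)
      omega
  exact key _ (subset_refl _)

theorem cl_sub {s : ℕ} (hE : Expd pos s) {S S' : Finset V} (hS : 4 * S.card ≤ s)
    (hS' : 4 * S'.card ≤ s)
    (h : S' ⊆ S ∪ vert pos (cl pos (Fintype.card P - 2) s S)) :
    cl pos (Fintype.card P - 2) s S' ⊆ cl pos (Fintype.card P - 2) s S := by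
  classical
  obtain ⟨a1, a2⟩ := cl_spec pos hE hS
  obtain ⟨b1, b2⟩ := cl_spec pos hE hS'
  refine subset_trans subset_union_left (subset_cl pos
    (T := cl pos (Fintype.card P - 2) s S' ∪ cl pos (Fintype.card P - 2) s S) ?_ ?_)
  · have := Finset.card_union_le (cl pos (Fintype.card P - 2) s S')
      (cl pos (Fintype.card P - 2) s S)
    omega
  · intro b hb
    by_cases hbS : b ∈ cl pos (Fintype.card P - 2) s S
    · exact lt_of_le_of_lt (card_le_card (fr_anti pos (subset_refl _) subset_union_right b))
        (a1 b hbS)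
    · have hb' : b ∈ cl pos (Fintype.card P - 2) s S' := (mem_union.1 hb).resolve_right hbS
      refine lt_of_le_of_lt (card_le_card ?_) (b1 b hb')
      intro p hp
      rw [mem_fr] at hp ⊢
      refine ⟨?_, fun b' hb'' p' hh => hp.2 b' (mem_union_left _ hb'') p' hh⟩
      intro hpS
      rcases mem_union.1 (h hpS) with h1 | h1
      · exact hp.1 h1
      · obtain ⟨b', hb', p', hp'⟩ := (mem_vert pos).1 h1
        have := (hp.2 b' (mem_union_right _ hb') p' hp').1
        rw [this] at hb'
        exact hbS hb'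

theorem peel {s : ℕ} (hE : Expd pos s) {S : Finset V} (hS : 4 * S.card ≤ s) {T : Finset B}
    (hT : T.card ≤ s) (hsub : cl pos (Fintype.card P - 2) s S ⊆ T)
    (hne : T ≠ cl pos (Fintype.card P - 2) s S) :
    ∃ b ∈ T, b ∉ cl pos (Fintype.card P - 2) s S ∧
      Fintype.card P - 2 ≤ (fr pos S T b).card := by
  by_contra hcon
  push Not at hcon
  have hC : Ctd pos (Fintype.card P - 2) S T := by
    intro b hb
    by_cases hbS : b ∈ cl pos (Fintype.card P - 2) s S
    · exact lt_of_le_of_lt (card_le_card (fr_anti pos (subset_refl _) hsub b))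
        ((cl_spec pos hE hS).1 b hbS)
    · exact hcon b hb hbS
  exact hne (subset_antisymm (subset_cl pos hT hC) hsub)

theorem cl_empty {s : ℕ} (hE : Expd pos s) : cl pos (Fintype.card P - 2) s ∅ = ∅ := by
  have := (cl_spec pos hE (S := ∅) (by simp)).2
  simpa using this

end Pool.Agent.W939.PC
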