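import Mathlib

/-!
Functions on labelings `V → A`, the basis of monomials `chi m`, restrictions and normal forms
modulo a subspace.
-/

set_option linter.unusedSectionVars false
set_option linter.unusedSimpArgs false

namespace Pool.Agent.W939.PC

open Finset

variable {V A : Type} [Fintype V] [DecidableEq V] [Fintype A] [DecidableEq A]
variable (K : Type) [Field K] (o : A)

/-- Support of a monomial. -/
def sup (m : V → A) : Finset V := univ.filter (fun v => m v ≠ o)

/-- The monomial `m` as a function on labelings. -/
def chi (m : V → A) : (V → A) → K := fun y => if ∀ v, m v ≠ o → y v = m v then 1 else 0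

theorem mem_sup {m : V → A} {v : V} : v ∈ sup o m ↔ m v ≠ o := by
  simp [sup]

/-- Functions which depend only on the coordinates in `S`. -/
def Dep (S : Finset V) : Submodule K ((V → A) → K) where
  carrier := {f | ∀ y y' : V → A, (∀ v ∈ S, y v = y' v) → f y = f y'}
  zero_mem' := fun _ _ _ => rfl
  add_mem' := by
    intro a b ha hb y y' h
    simp only [Pi.add_apply]
    rw [ha y y' h, hb y y' h]
  smul_mem' := by
    intro c a ha y y' h
    simp only [Pi.smul_apply]
    rw [ha y y' h]

theorem mem_Dep {S : Finset V} {f : (V → A) → K} :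
    f ∈ Dep K S ↔ ∀ y y' : V → A, (∀ v ∈ S, y v = y' v) → f y = f y' := Iff.rfl

theorem Dep_mono {S S' : Finset V} (h : S ⊆ S') : (Dep K S : Submodule K ((V → A) → K)) ≤ Dep K S' :=
  fun _ hf y y' hy => hf y y' (fun v hv => hy v (h hv))

theorem chi_mem_Dep (m : V → A) : chi K o m ∈ Dep K (sup o m) := by
  intro y y' h
  have : (∀ v, m v ≠ o → y v = m v) ↔ (∀ v, m v ≠ o → y' v = m v) := by
    constructor
    · intro H v hv
      rw [← h v ((mem_sup o).2 hv)]; exact H v hv
    · intro H v hv
      rw [h v ((mem_sup o).2 hv)]; exact H v hv
  simp only [chi, this]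

theorem Dep_mul {S : Finset V} {f g : (V → A) → K} (hf : f ∈ Dep K S) (hg : g ∈ Dep K S) :
    f * g ∈ Dep K S := by
  intro y y' h
  simp only [Pi.mul_apply]
  rw [hf y y' h, hg y y' h]

/-- The span of the monomials with support inside `S`. -/
def Mon (S : Finset V) : Submodule K ((V → A) → K) :=
  Submodule.span K {f | ∃ m : V → A, sup o m ⊆ S ∧ f = chi K o m}

theorem chi_const : chi K o (fun _ : V => o) = 1 := by
  funext y; simp [chi]

theorem Mon_mono {S S' : Finset V} (h : S ⊆ S') : Mon K o S ≤ Mon K o S' := by
  apply Submodule.span_mono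
  rintro f ⟨m, hm, rfl⟩
  exact ⟨m, hm.trans h, rfl⟩

theorem sup_update (m : V → A) (v : V) (a : A) (ha : a ≠ o) :
    sup o (Function.update m v a) = insert v (sup o m) := by
  ext w
  simp only [sup, mem_filter, mem_univ, true_and, mem_insert]
  by_cases h : w = v
  · subst h; simp [ha]
  · simp [Function.update_of_ne h, h]

theorem ind_mul_chi (m : V → A) (v : V) (a : A) (ha : a ≠ o) (hm : m v = o) :
    (fun y : V → A => if y v = a then (1 : K) else 0) * chi K o m =
      chi K o (Function.update m v a) := by
  funext y
  simp only [Pi.mul_apply, chi]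
  have key : (∀ w, Function.update m v a w ≠ o → y w = Function.update m v a w) ↔
      (y v = a ∧ ∀ w, m w ≠ o → y w = m w) := by
    constructor
    · intro H
      refine ⟨?_, ?_⟩
      · have := H v
        simp only [Function.update_self] at this
        exact this ha
      · intro w hw
        have hwv : w ≠ v := by rintro rfl; exact hw hm
        have := H w
        rw [Function.update_of_ne hwv] at this
        exact this hw
    · rintro ⟨h1, h2⟩ w hw
      by_cases h : w = v
      · subst h; simpa using h1
      · rw [Function.update_of_ne h] at hw ⊢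
        exact h2 w hw
  by_cases h1 : y v = a
  · simp only [h1, if_true, one_mul, key, true_and]
  · simp only [h1, if_false, zero_mul, key, false_and]

theorem ind_o_mul (v : V) (f : (V → A) → K) :
    (fun y : V → A => if y v = o then (1 : K) else 0) * f =
      f - ∑ a ∈ univ.filter (fun a : A => a ≠ o),
        (fun y : V → A => if y v = a then (1 : K) else 0) * f := by
  funext y
  simp only [Pi.mul_apply, Pi.sub_apply, Finset.sum_apply]
  by_cases h : y v = o
  · rw [Finset.sum_eq_zero]
    · simp [h]
    · intro a ha
      simp only [mem_filter, mem_univ, true_and] at ha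
      rw [if_neg (by rw [h]; exact fun h' => ha h'.symm)]
      simp
  · rw [Finset.sum_eq_single (y v)]
    · simp [h]
    · intro b _ hb
      rw [if_neg (fun h' => hb h'.symm)]; simp
    · intro h'
      exact absurd (by simp [h]) h'

theorem Dep_le_Mon (S : Finset V) : Dep K S ≤ Mon K o S := by
  induction S using Finset.induction_on with
  | empty =>
    intro f hf
    have : f = f (fun _ => o) • chi K o (fun _ : V => o) := by
      rw [chi_const]
      funext y
      simp only [Pi.smul_apply, Pi.one_apply, smul_eq_mul, mul_one]
      exact hf _ _ (by simp)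
    rw [this]
    apply Submodule.smul_mem
    apply Submodule.subset_span
    refine ⟨_, ?_, rfl⟩
    intro v hv
    rw [mem_sup] at hv
    exact absurd rfl hv
  | insert v S hv ih =>
    intro f hf
    -- decompose according to the label of v
    let fa : A → (V → A) → K := fun a y => f (Function.update y v a)
    have hfa : ∀ a, fa a ∈ Dep K S := by
      intro a y y' h
      apply hf
      intro w hw
      by_cases hwv : w = v
      · subst hwv; simp
      · rw [Function.update_of_ne hwv, Function.update_of_ne hwv]
        exact h w ((mem_insert.1 hw).resolve_left hwv)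
    have hdec : f = ∑ a : A, (fun y : V → A => if y v = a then (1 : K) else 0) * fa a := by
      funext y
      simp only [Finset.sum_apply, Pi.mul_apply]
      rw [Finset.sum_eq_single (y v)]
      · simp [fa]
      · intro b _ hb
        rw [if_neg (fun h' => hb h'.symm)]; simp
      · intro h'; exact absurd (mem_univ _) h'
    rw [hdec]
    apply Submodule.sum_mem
    intro a _
    -- multiply a span
    have hmul : ∀ b : A, b ≠ o → ∀ g ∈ Mon K o S,
        (fun y : V → A => if y v = b then (1 : K) else 0) * g ∈ Mon K o (insert v S) := by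
      intro b hb g hg
      refine Submodule.span_induction (p := fun g _ =>
        (fun y : V → A => if y v = b then (1 : K) else 0) * g ∈ Mon K o (insert v S))
        ?_ ?_ ?_ ?_ hg
      · rintro g ⟨m, hm, rfl⟩
        have hmv : m v = o := by
          by_contra h
          exact hv (hm ((mem_sup o).2 h))
        rw [ind_mul_chi K o m v b hb hmv]
        apply Submodule.subset_span
        refine ⟨_, ?_, rfl⟩
        rw [sup_update o m v b hb]
        exact insert_subset_insert _ hm
      · rw [mul_zero]; exact Submodule.zero_mem _
      · intro g g' _ _ h h'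
        rw [mul_add]; exact Submodule.add_mem _ h h'
      · intro c g _ h
        rw [mul_smul_comm]; exact Submodule.smul_mem _ _ h
    by_cases ha : a = o
    · subst ha
      rw [ind_o_mul]
      apply Submodule.sub_mem
      · exact Mon_mono K a (subset_insert _ _) (ih (hfa a))
      · apply Submodule.sum_mem
        intro b hb
        simp only [mem_filter, mem_univ, true_and] at hb
        exact hmul b hb _ (ih (hfa a))
    · exact hmul a ha _ (ih (hfa a))

theorem Mon_eq_Dep (S : Finset V) : Mon K o S = Dep K S := by
  apply le_antisymm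
  · apply Submodule.span_le.2
    rintro f ⟨m, hm, rfl⟩
    exact Dep_mono K hm (chi_mem_Dep K o m)
  · exact Dep_le_Mon K o S

theorem chi_span : ⊤ ≤ Submodule.span K (Set.range (chi K o (V := V))) := by
  intro f _
  have h1 : f ∈ Dep K (univ : Finset V) := by
    intro y y' h
    have : y = y' := funext fun v => h v (mem_univ v)
    rw [this]
  have h2 := Dep_le_Mon K o univ h1
  refine Submodule.span_mono ?_ h2
  rintro g ⟨m, _, rfl⟩
  exact ⟨m, rfl⟩

/-- The basis of monomials. -/
noncomputable def bas : Module.Basis (V → A) K ((V → A) → K) :=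
  basisOfTopLeSpanOfCardEqFinrank (chi K o) (chi_span K o) (by
    rw [Module.finrank_fintype_fun_eq_card])

theorem bas_apply (m : V → A) : bas K o m = chi K o m := by
  simp [bas]

/-- An injective rank of the monomials which refines the size of the support. -/
noncomputable def rk (m : V → A) : ℕ :=
  (sup o m).card * Fintype.card (V → A) + (Fintype.equivFin (V → A) m : ℕ)

theorem rk_inj {m m' : V → A} (h : rk o m = rk o m') : m = m' := by
  have h1 : (Fintype.equivFin (V → A) m : ℕ) < Fintype.card (V → A) := (Fintype.equivFin _ m).2
  have h2 : (Fintype.equivFin (V → A) m' : ℕ) < Fintype.card (V → A) := (Fintype.equivFin _ m').2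
  have h3 : (Fintype.equivFin (V → A) m : ℕ) = (Fintype.equivFin (V → A) m' : ℕ) := by
    have e1 : rk o m % Fintype.card (V → A) = (Fintype.equivFin (V → A) m : ℕ) := by
      rw [rk, Nat.mul_comm, Nat.mul_add_mod, Nat.mod_eq_of_lt h1]
    have e2 : rk o m' % Fintype.card (V → A) = (Fintype.equivFin (V → A) m' : ℕ) := by
      rw [rk, Nat.mul_comm, Nat.mul_add_mod, Nat.mod_eq_of_lt h2]
    rw [← e1, ← e2, h]
  exact (Fintype.equivFin (V → A)).injective (Fin.ext h3)

theorem rk_lt {m m' : V → A} (h : (sup o m).card < (sup o m').card) : rk o m < rk o m' := by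
  have h1 : (Fintype.equivFin (V → A) m : ℕ) < Fintype.card (V → A) := (Fintype.equivFin _ m).2
  unfold rk
  calc (sup o m).card * Fintype.card (V → A) + (Fintype.equivFin (V → A) m : ℕ)
      < (sup o m).card * Fintype.card (V → A) + Fintype.card (V → A) := by omega
    _ = ((sup o m).card + 1) * Fintype.card (V → A) := by ring
    _ ≤ (sup o m').card * Fintype.card (V → A) := Nat.mul_le_mul_right _ h
    _ ≤ _ := Nat.le_add_right _ _

theorem card_le_of_rk_le {m m' : V → A} (h : rk o m ≤ rk o m') :
    (sup o m).card ≤ (sup o m').card := by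
  by_contra h'
  exact absurd (rk_lt o (not_le.1 h')) (not_lt.2 h)

/-- Span of the monomials of smaller rank. -/
noncomputable def Low (m : V → A) : Submodule K ((V → A) → K) :=
  Submodule.span K {f | ∃ m', rk o m' < rk o m ∧ f = chi K o m'}

/-- Irreducible monomials. -/
def Irr (I : Submodule K ((V → A) → K)) : Set (V → A) :=
  {m | chi K o m ∉ I ⊔ Low K o m}

theorem Irr_anti {I J : Submodule K ((V → A) → K)} (h : I ≤ J) : Irr K o J ⊆ Irr K o I :=
  fun _ hm hm' => hm (sup_le_sup_right h _ hm')

/-- Span of the irreducible monomials. -/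
def Cpl (I : Submodule K ((V → A) → K)) : Submodule K ((V → A) → K) :=
  Submodule.span K {f | ∃ m, m ∈ Irr K o I ∧ f = chi K o m}

theorem disjoint_Cpl (I : Submodule K ((V → A) → K)) : Disjoint I (Cpl K o I) := by
  rw [Submodule.disjoint_def]
  intro f hfI hfC
  by_contra hne
  have hsupp : ((bas K o).repr f).support ⊆ (Irr K o I).toFinite.toFinset := by
    have h1 : f ∈ Submodule.span K ((bas K o) '' (Irr K o I)) := by
      refine Submodule.span_mono ?_ hfC
      rintro g ⟨m, hm, rfl⟩
      exact ⟨m, hm, bas_apply K o m⟩
    have h2 := (Module.Basis.mem_span_image (bas K o)).1 h1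
    intro m hm
    simpa using h2 hm
  have hnonempty : ((bas K o).repr f).support.Nonempty := by
    rw [Finset.nonempty_iff_ne_empty]
    intro h
    rw [Finsupp.support_eq_empty] at h
    exact hne ((LinearEquiv.map_eq_zero_iff _).1 h)
  obtain ⟨m, hm, hmax⟩ := Finset.exists_max_image _ (rk o) hnonempty
  have hirr : m ∈ Irr K o I := by simpa using hsupp hm
  apply hirr
  have hc : (bas K o).repr f m ≠ 0 := Finsupp.mem_support_iff.1 hm
  have hf : f = ∑ m' ∈ ((bas K o).repr f).support, (bas K o).repr f m' • chi K o m' := by
    conv_lhs => rw [← (bas K o).linearCombination_repr f]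
    rw [Finsupp.linearCombination_apply, Finsupp.sum]
    exact Finset.sum_congr rfl fun m' _ => by rw [bas_apply]
  rw [← Finset.add_sum_erase _ _ hm] at hf
  have h3 : chi K o m = ((bas K o).repr f m)⁻¹ • (f - ∑ m' ∈ ((bas K o).repr f).support.erase m,
      (bas K o).repr f m' • chi K o m') := by
    rw [eq_inv_smul_iff₀ hc]
    rw [eq_sub_iff_add_eq]
    exact hf.symm
  rw [h3]
  apply Submodule.smul_mem
  apply Submodule.sub_mem
  · exact Submodule.mem_sup_left hfI
  · apply Submodule.mem_sup_right
    apply Submodule.sum_mem
    intro m' hm'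
    rw [mem_erase] at hm'
    apply Submodule.smul_mem
    apply Submodule.subset_span
    refine ⟨m', ?_, rfl⟩
    refine lt_of_le_of_ne (hmax m' hm'.2) ?_
    intro h
    exact hm'.1 (rk_inj o h)

end Pool.Agent.W939.PC
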