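import Mathlib
import Pool.Agent.W939.PC.Basis

/-!
Restrictions and normal forms modulo a subspace.
-/

set_option linter.unusedSectionVars false
set_option linter.unusedSimpArgs false

namespace Pool.Agent.W939.PC

open Finset

variable {V A : Type} [Fintype V] [DecidableEq V] [Fintype A] [DecidableEq A]
variable (K : Type) [Field K] (o : A)

/-- Overwrite the labels on `W` by those of `w`. -/
def ov (W : Finset V) (w y : V → A) : V → A := fun v => if v ∈ W then w v else y v

/-- Restriction of functions. -/
def res (W : Finset V) (w : V → A) : ((V → A) → K) →ₗ[K] ((V → A) → K) :=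
  LinearMap.funLeft K K (ov W w)

theorem res_apply (W : Finset V) (w : V → A) (f : (V → A) → K) (y : V → A) :
    res K W w f y = f (ov W w y) := rfl

/-- Erase the labels on `W` from a monomial. -/
def clr (W : Finset V) (m : V → A) : V → A := fun v => if v ∈ W then o else m v

theorem sup_clr (W : Finset V) (m : V → A) : sup o (clr o W m) = sup o m \ W := by
  ext v
  simp only [sup, clr, mem_filter, mem_univ, true_and, mem_sdiff]
  by_cases h : v ∈ W <;> simp [h]

theorem clr_eq_self {W : Finset V} {m : V → A} (h : Disjoint (sup o m) W) : clr o W m = m := by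
  funext v
  unfold clr
  split_ifs with hv
  · by_contra h'
    exact Finset.disjoint_left.1 h ((mem_sup o).2 fun h'' => h' h''.symm) hv
  · rfl

theorem rk_clr_le (W : Finset V) (m : V → A) : rk o (clr o W m) ≤ rk o m := by
  by_cases h : Disjoint (sup o m) W
  · rw [clr_eq_self o h]
  · apply le_of_lt
    apply rk_lt
    rw [sup_clr]
    apply Finset.card_lt_card
    rw [Finset.ssubset_iff_subset_ne]
    refine ⟨sdiff_subset, ?_⟩
    intro h'
    exact h (by rw [← Finset.sdiff_eq_self_iff_disjoint]; exact h')

theorem res_chi (W : Finset V) (w m : V → A) :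
    res K W w (chi K o m) = if (∀ v ∈ W, m v ≠ o → w v = m v) then chi K o (clr o W m) else 0 := by
  funext y
  rw [res_apply]
  split_ifs with h
  · unfold chi
    have : (∀ v, m v ≠ o → ov W w y v = m v) ↔ (∀ v, clr o W m v ≠ o → y v = clr o W m v) := by
      constructor
      · intro H v hv
        unfold clr at hv ⊢
        by_cases hvW : v ∈ W
        · simp [hvW] at hv
        · simp only [hvW, if_false] at hv ⊢
          have := H v hv
          simpa [ov, hvW] using this
      · intro H v hv
        by_cases hvW : v ∈ W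
        · simp only [ov, hvW, if_true]
          exact h v hvW hv
        · simp only [ov, hvW, if_false]
          have := H v
          simp only [clr, hvW, if_false] at this
          exact this hv
    simp only [this]
  · unfold chi
    rw [if_neg]
    · rfl
    · intro H
      apply h
      intro v hvW hv
      have := H v hv
      simpa [ov, hvW] using this

theorem res_chi_disjoint {W : Finset V} (w : V → A) {m : V → A} (h : Disjoint (sup o m) W) :
    res K W w (chi K o m) = chi K o m := by
  rw [res_chi, if_pos, clr_eq_self o h]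
  intro v hv hm
  exact absurd hv (Finset.disjoint_left.1 h ((mem_sup o).2 hm))

theorem res_Low (W : Finset V) (w m : V → A) {f : (V → A) → K} (hf : f ∈ Low K o m) :
    res K W w f ∈ Low K o m := by
  have h1 : Low K o m ≤ (Low K o m).comap (res K W w) := by
    apply Submodule.span_le.2
    rintro g ⟨m', hm', rfl⟩
    change res K W w (chi K o m') ∈ Low K o m
    rw [res_chi]
    split_ifs
    · apply Submodule.subset_span
      exact ⟨_, lt_of_le_of_lt (rk_clr_le o W m') hm', rfl⟩
    · exact Submodule.zero_mem _
  exact h1 hf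

theorem chi_mem_sup_Cpl (I : Submodule K ((V → A) → K)) (n : ℕ) :
    ∀ m : V → A, rk o m = n → chi K o m ∈ I ⊔ Cpl K o I := by
  induction n using Nat.strong_induction_on with
  | _ n ih =>
    intro m hm
    by_cases h : m ∈ Irr K o I
    · apply Submodule.mem_sup_right
      exact Submodule.subset_span ⟨m, h, rfl⟩
    · simp only [Irr, Set.mem_ofPred_eq, not_not] at h
      have h2 : I ⊔ Low K o m ≤ I ⊔ Cpl K o I := by
        apply sup_le le_sup_left
        apply Submodule.span_le.2
        rintro g ⟨m', hm', rfl⟩
        exact ih _ (hm ▸ hm') m' rfl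
      exact h2 h

theorem isCompl_Cpl (I : Submodule K ((V → A) → K)) : IsCompl (Cpl K o I) I := by
  refine ⟨(disjoint_Cpl K o I).symm, ?_⟩
  rw [codisjoint_iff_le_sup, sup_comm]
  refine (chi_span K o).trans ?_
  apply Submodule.span_le.2
  rintro g ⟨m, rfl⟩
  exact chi_mem_sup_Cpl K o I _ m rfl

/-- Normal form modulo `I`. -/
noncomputable def nf (I : Submodule K ((V → A) → K)) : ((V → A) → K) →ₗ[K] ((V → A) → K) :=
  Submodule.projection (Cpl K o I) I (isCompl_Cpl K o I)

theorem nf_mem (I : Submodule K ((V → A) → K)) (f : (V → A) → K) : nf K o I f ∈ Cpl K o I :=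
  Submodule.projection_apply_mem _ _

theorem sub_nf_mem (I : Submodule K ((V → A) → K)) (f : (V → A) → K) : f - nf K o I f ∈ I :=
  Submodule.sub_projection_mem _ _

theorem nf_eq_zero {I : Submodule K ((V → A) → K)} {f : (V → A) → K} (h : f ∈ I) :
    nf K o I f = 0 :=
  (Submodule.projection_apply_eq_zero_iff _).2 h

theorem nf_self {I : Submodule K ((V → A) → K)} {f : (V → A) → K} (h : f ∈ Cpl K o I) :
    nf K o I f = f :=
  Submodule.projection_apply_left (isCompl_Cpl K o I) ⟨f, h⟩

theorem nf_uniq {I : Submodule K ((V → A) → K)} {f g : (V → A) → K} (hg : g ∈ Cpl K o I)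
    (h : f - g ∈ I) : nf K o I f = g := by
  have h1 : nf K o I (f - g) = 0 := nf_eq_zero K o h
  rw [map_sub, nf_self K o hg, sub_eq_zero] at h1
  exact h1

theorem nf_congr {I : Submodule K ((V → A) → K)} {f g : (V → A) → K} (h : f - g ∈ I) :
    nf K o I f = nf K o I g := by
  have h1 : nf K o I (f - g) = 0 := nf_eq_zero K o h
  rw [map_sub, sub_eq_zero] at h1
  exact h1

/-- Irreducible monomials of rank at most that of `m`, inside a region. -/
def Reg (I : Submodule K ((V → A) → K)) (Y : Finset V) (m : V → A) :
    Submodule K ((V → A) → K) :=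
  Submodule.span K {f | ∃ m', m' ∈ Irr K o I ∧ rk o m' ≤ rk o m ∧ sup o m' ⊆ Y ∧ f = chi K o m'}

theorem Reg_le (I : Submodule K ((V → A) → K)) (Y : Finset V) (m : V → A) :
    Reg K o I Y m ≤ Cpl K o I := by
  apply Submodule.span_mono
  rintro f ⟨m', h, -, -, rfl⟩
  exact ⟨m', h, rfl⟩

theorem chi_mem_Reg {I : Submodule K ((V → A) → K)} {Y : Finset V}
    (hI : ∀ f ∈ I, res K Yᶜ (fun _ => o) f ∈ I) (n : ℕ) :
    ∀ m : V → A, rk o m = n → sup o m ⊆ Y → chi K o m ∈ I ⊔ Reg K o I Y m := by
  induction n using Nat.strong_induction_on with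
  | _ n ih =>
    intro m hm hY
    by_cases h : m ∈ Irr K o I
    · apply Submodule.mem_sup_right
      exact Submodule.subset_span ⟨m, h, le_refl _, hY, rfl⟩
    · simp only [Irr, Set.mem_ofPred_eq, not_not] at h
      obtain ⟨i, hi, l, hl, hil⟩ := Submodule.mem_sup.1 h
      have hdis : Disjoint (sup o m) Yᶜ := by
        rw [Finset.disjoint_left]
        intro v hv hv'
        exact (mem_compl.1 hv') (hY hv)
      have e1 : chi K o m = res K Yᶜ (fun _ => o) i + res K Yᶜ (fun _ => o) l := by
        rw [← map_add, hil, res_chi_disjoint K o _ hdis]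
      rw [e1]
      apply Submodule.add_mem
      · exact Submodule.mem_sup_left (hI i hi)
      · have h2 : Low K o m ≤ (I ⊔ Reg K o I Y m).comap (res K Yᶜ (fun _ => o)) := by
          apply Submodule.span_le.2
          rintro g ⟨m', hm', rfl⟩
          change res K Yᶜ (fun _ => o) (chi K o m') ∈ I ⊔ Reg K o I Y m
          rw [res_chi]
          split_ifs
          · have h3 : rk o (clr o Yᶜ m') < rk o m := lt_of_le_of_lt (rk_clr_le o _ m') hm'
            have h4 : sup o (clr o Yᶜ m') ⊆ Y := by
              rw [sup_clr]
              intro v hv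
              rw [mem_sdiff, mem_compl, not_not] at hv
              exact hv.2
            have h5 := ih _ (hm ▸ h3) (clr o Yᶜ m') rfl h4
            have h6 : Reg K o I Y (clr o Yᶜ m') ≤ Reg K o I Y m := by
              apply Submodule.span_mono
              rintro f ⟨m'', ha, hb, hc, rfl⟩
              exact ⟨m'', ha, hb.trans h3.le, hc, rfl⟩
            exact (sup_le_sup_left h6 I) h5
          · exact Submodule.zero_mem _
        exact h2 hl

theorem nf_chi_mem_Reg {I : Submodule K ((V → A) → K)} {Y : Finset V}
    (hI : ∀ f ∈ I, res K Yᶜ (fun _ => o) f ∈ I) (m : V → A) (hY : sup o m ⊆ Y) :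
    nf K o I (chi K o m) ∈ Reg K o I Y m := by
  obtain ⟨i, hi, l, hl, hil⟩ := Submodule.mem_sup.1 (chi_mem_Reg K o hI _ m rfl hY)
  have : nf K o I (chi K o m) = l := by
    apply nf_uniq K o (Reg_le K o I Y m hl)
    rw [← hil, add_sub_cancel_right]
    exact hi
  rw [this]
  exact hl

end Pool.Agent.W939.PC
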