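import Mathlib
import Pool.Agent.W939.PC.NF
import Pool.Agent.W939.PC.Closure

/-!
The reduction operator of Alekhnovich and Razborov for systems of flexible constraints on
expanding blocks.
-/

set_option linter.unusedSectionVars false
set_option linter.unusedSimpArgs false

namespace Pool.Agent.W939.PC

open Finset

variable {V A : Type} [Fintype V] [DecidableEq V] [Fintype A] [DecidableEq A]
variable {B P : Type} [Fintype B] [DecidableEq B] [Fintype P] [DecidableEq P]
variable (K : Type) [Field K] (o : A)
variable (pos : B → P → V) (sat : B → (V → A) → Prop)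

/-- The constraint of a block depends only on the labels of its vertices. -/
def Local : Prop := ∀ b (y y' : V → A), (∀ p, y (pos b p) = y' (pos b p)) → sat b y → sat b y'

/-- All but two positions (with vertices which occur once) can be fixed such that the constraint
holds. -/
def Flexible : Prop := ∀ b (Q : Finset P), Fintype.card P - 2 ≤ Q.card →
  (∀ p ∈ Q, ∀ p', pos b p' = pos b p → p' = p) →
  ∃ w : V → A, ∀ y, sat b (ov (Q.image (pos b)) w y)

/-- Functions which vanish on all labelings satisfying the blocks in `T`. -/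
def Idl (T : Finset B) : Submodule K ((V → A) → K) where
  carrier := {f | ∀ y, (∀ b ∈ T, sat b y) → f y = 0}
  zero_mem' := fun _ _ => rfl
  add_mem' := by
    intro a b ha hb y hy
    simp only [Pi.add_apply]
    rw [ha y hy, hb y hy, add_zero]
  smul_mem' := by
    intro c a ha y hy
    simp only [Pi.smul_apply]
    rw [ha y hy, smul_zero]

theorem mem_Idl {T : Finset B} {f : (V → A) → K} :
    f ∈ Idl K sat T ↔ ∀ y, (∀ b ∈ T, sat b y) → f y = 0 := Iff.rfl

theorem Idl_mono {T T' : Finset B} (h : T ⊆ T') : Idl K sat T ≤ Idl K sat T' :=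
  fun _ hf y hy => hf y (fun b hb => hy b (h hb))

theorem Idl_mul {T : Finset B} {f : (V → A) → K} (g : (V → A) → K) (hf : f ∈ Idl K sat T) :
    g * f ∈ Idl K sat T := by
  intro y hy
  simp only [Pi.mul_apply]
  rw [hf y hy, mul_zero]

theorem Idl_empty {f : (V → A) → K} (hf : f ∈ Idl K sat (∅ : Finset B)) : f = 0 := by
  funext y
  exact hf y (by simp)

variable {K o pos sat}

theorem Idl_res (hloc : Local pos sat) {T : Finset B} {Y : Finset V} (hY : vert pos T ⊆ Y)
    (w : V → A) {f : (V → A) → K} (hf : f ∈ Idl K sat T) : res K Yᶜ w f ∈ Idl K sat T := by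
  intro y hy
  rw [res_apply]
  apply hf
  intro b hb
  refine hloc b y _ ?_ (hy b hb)
  intro p
  have : pos b p ∈ Y := hY ((mem_vert pos).2 ⟨b, hb, p, rfl⟩)
  simp [ov, this]

theorem Idl_peel (hloc : Local pos sat) {T : Finset B} {b : B} {S : Finset V} {w : V → A}
    (hw : ∀ y, sat b (ov ((fr pos S T b).image (pos b)) w y)) {f : (V → A) → K}
    (hf : f ∈ Idl K sat T) :
    res K ((fr pos S T b).image (pos b)) w f ∈ Idl K sat (T.erase b) := by
  intro y hy
  rw [res_apply]
  apply hf
  intro b' hb'
  by_cases h : b' = b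
  · rw [h]; exact hw y
  · refine hloc b' y _ ?_ (hy b' (mem_erase.2 ⟨h, hb'⟩))
    intro p
    have : pos b' p ∉ (fr pos S T b).image (pos b) := by
      intro hh
      obtain ⟨p', hp', he⟩ := mem_image.1 hh
      exact h (((mem_fr pos).1 hp').2 b' hb' p he.symm).1
    simp only [ov, this, if_false]

variable {s : ℕ}

/-- Irreducibility modulo the closure gives irreducibility modulo all larger families. -/
theorem irr_up (hloc : Local pos sat) (hflex : Flexible pos sat) (hE : Expd pos s)
    {m : V → A} (hm : 4 * (sup o m).card ≤ s)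
    (hirr : m ∈ Irr K o (Idl K sat (cl pos (Fintype.card P - 2) s (sup o m)))) (n : ℕ) :
    ∀ T : Finset B, T.card = n → T.card ≤ s → cl pos (Fintype.card P - 2) s (sup o m) ⊆ T →
      m ∈ Irr K o (Idl K sat T) := by
  induction n with
  | zero =>
    intro T h0 hT hsub
    have : T = cl pos (Fintype.card P - 2) s (sup o m) := by
      rw [Finset.card_eq_zero] at h0
      subst h0
      exact (Finset.subset_empty.1 hsub).symm
    rw [this]; exact hirr
  | succ n ih =>
    intro T hn hT hsub
    by_cases hne : T = cl pos (Fintype.card P - 2) s (sup o m)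
    · rw [hne]; exact hirr
    · obtain ⟨b, hbT, hbc, hfr⟩ := peel pos hE hm hT hsub hne
      intro hcon
      have hT' : (T.erase b).card = n := by
        rw [Finset.card_erase_of_mem hbT, hn]; rfl
      have h1 := ih (T.erase b) hT' (by omega) (by
        intro x hx
        rw [mem_erase]
        exact ⟨fun h => hbc (h ▸ hx), hsub hx⟩)
      apply h1
      obtain ⟨w, hw⟩ := hflex b (fr pos (sup o m) T b) hfr (by
        intro p hp p' hpp
        exact (((mem_fr pos).1 hp).2 b hbT p' hpp).2)
      obtain ⟨i, hi, l, hl, hil⟩ := Submodule.mem_sup.1 hcon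
      have hdis : Disjoint (sup o m) ((fr pos (sup o m) T b).image (pos b)) := by
        rw [Finset.disjoint_right]
        intro v hv
        obtain ⟨p, hp, rfl⟩ := mem_image.1 hv
        exact ((mem_fr pos).1 hp).1
      have e1 : chi K o m = res K ((fr pos (sup o m) T b).image (pos b)) w i +
          res K ((fr pos (sup o m) T b).image (pos b)) w l := by
        rw [← map_add, hil, res_chi_disjoint K o w hdis]
      rw [e1]
      exact Submodule.add_mem _ (Submodule.mem_sup_left (Idl_peel hloc hw hi))
        (Submodule.mem_sup_right (res_Low K o _ w m hl))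

theorem nf_chi_eq (hloc : Local pos sat) (hflex : Flexible pos sat) (hE : Expd pos s)
    {m : V → A} (hm : 4 * (sup o m).card ≤ s) {T : Finset B} (hT : T.card ≤ s)
    (hsub : cl pos (Fintype.card P - 2) s (sup o m) ⊆ T) :
    nf K o (Idl K sat T) (chi K o m) =
      nf K o (Idl K sat (cl pos (Fintype.card P - 2) s (sup o m))) (chi K o m) := by
  have h1 := nf_chi_mem_Reg K o (I := Idl K sat (cl pos (Fintype.card P - 2) s (sup o m)))
    (Y := sup o m ∪ vert pos (cl pos (Fintype.card P - 2) s (sup o m)))
    (fun f hf => Idl_res hloc subset_union_right _ hf) m subset_union_left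
  apply nf_uniq K o
  · refine (?_ : Reg K o (Idl K sat (cl pos (Fintype.card P - 2) s (sup o m)))
      (sup o m ∪ vert pos (cl pos (Fintype.card P - 2) s (sup o m))) m ≤ _) h1
    apply Submodule.span_le.2
    rintro f ⟨m', hirr, hrk, hsup, rfl⟩
    apply Submodule.subset_span
    refine ⟨m', ?_, rfl⟩
    have hc := card_le_of_rk_le o hrk
    have h2 := cl_sub pos hE hm (by omega) hsup
    exact irr_up hloc hflex hE (by omega) (Irr_anti K o (Idl_mono K sat h2) hirr) _ T rfl hT
      (h2.trans hsub)
  · exact Idl_mono K sat hsub (sub_nf_mem K o _ _)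

variable (K o pos sat s)

/-- The reduction operator. -/
noncomputable def Rd : ((V → A) → K) →ₗ[K] ((V → A) → K) :=
  (bas K o).constr K (fun m => if 4 * (sup o m).card ≤ s then
    nf K o (Idl K sat (cl pos (Fintype.card P - 2) s (sup o m))) (chi K o m) else 0)

theorem Rd_chi {m : V → A} (hm : 4 * (sup o m).card ≤ s) : Rd K o pos sat s (chi K o m) =
    nf K o (Idl K sat (cl pos (Fintype.card P - 2) s (sup o m))) (chi K o m) := by
  rw [Rd, ← bas_apply K o m, Module.Basis.constr_basis, if_pos hm, bas_apply]

variable {K o pos sat s}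

theorem Rd_dep (hloc : Local pos sat) (hflex : Flexible pos sat) (hE : Expd pos s)
    {S : Finset V} (hS : 4 * S.card ≤ s) {T : Finset B} (hT : T.card ≤ s)
    (hsub : cl pos (Fintype.card P - 2) s S ⊆ T) {f : (V → A) → K} (hf : f ∈ Dep K S) :
    Rd K o pos sat s f = nf K o (Idl K sat T) f := by
  have h1 := Dep_le_Mon K o S hf
  refine Submodule.span_induction (p := fun f _ =>
    Rd K o pos sat s f = nf K o (Idl K sat T) f) ?_ ?_ ?_ ?_ h1
  · rintro g ⟨m, hm, rfl⟩
    have hc : 4 * (sup o m).card ≤ s := by
      have := Finset.card_le_card hm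
      omega
    rw [Rd_chi K o pos sat s hc]
    rw [nf_chi_eq hloc hflex hE hc hT]
    exact (cl_sub pos hE hS hc (hm.trans subset_union_left)).trans hsub
  · simp
  · intro x y _ _ hx hy
    rw [map_add, map_add, hx, hy]
  · intro c x _ hx
    rw [map_smul, map_smul, hx]

theorem Rd_one (hloc : Local pos sat) (hflex : Flexible pos sat) (hE : Expd pos s) :
    Rd K o pos sat s 1 = 1 := by
  have h1 : (1 : (V → A) → K) ∈ Dep K (∅ : Finset V) := fun _ _ _ => rfl
  rw [Rd_dep hloc hflex hE (S := ∅) (by simp) (T := ∅) (by simp) (by rw [cl_empty pos hE]) h1]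
  have h2 := Idl_empty K sat (sub_nf_mem K o (Idl K sat (∅ : Finset B)) (1 : (V → A) → K))
  exact (sub_eq_zero.1 h2).symm

theorem Rd_block (hloc : Local pos sat) (hflex : Flexible pos sat) (hE : Expd pos s)
    (hs : 1 ≤ s) {S : Finset V} (hS : 4 * S.card ≤ s) {b : B} {f : (V → A) → K}
    (hf : f ∈ Dep K S) (hfb : ∀ y, sat b y → f y = 0)
    (hb : (univ.filter (fun p => pos b p ∉ S)).card < Fintype.card P - 2) :
    Rd K o pos sat s f = 0 := by
  have h2 := (cl_spec pos hE hS).2
  rw [Rd_dep hloc hflex hE hS (T := cl pos (Fintype.card P - 2) s S) (by omega)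
    (subset_refl _) hf]
  apply nf_eq_zero
  have hbc : b ∈ cl pos (Fintype.card P - 2) s S := by
    apply subset_cl pos (T := {b}) (by simpa using hs) _ (mem_singleton_self b)
    intro b' hb'
    rw [mem_singleton] at hb'
    subst hb'
    refine lt_of_le_of_lt (card_le_card ?_) hb
    intro p hp
    rw [mem_filter]
    exact ⟨mem_univ _, ((mem_fr pos).1 hp).1⟩
  intro y hy
  exact hfb y (hy b hbc)

variable (K o)

/-- Combinations of monomials with at most `d` labels. -/
def DegLe (d : ℕ) : Submodule K ((V → A) → K) :=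
  Submodule.span K {f | ∃ m : V → A, (sup o m).card ≤ d ∧ f = chi K o m}

theorem Dep_le_DegLe {S : Finset V} {d : ℕ} (h : S.card ≤ d) :
    (Dep K S : Submodule K ((V → A) → K)) ≤ DegLe K o d := by
  refine (Dep_le_Mon K o S).trans ?_
  apply Submodule.span_mono
  rintro f ⟨m, hm, rfl⟩
  exact ⟨m, (Finset.card_le_card hm).trans h, rfl⟩

variable {K o}

theorem Rd_mul (hloc : Local pos sat) (hflex : Flexible pos sat) (hE : Expd pos s)
    {d z : ℕ} (hd : 4 * (d + z) ≤ s) {Z : Finset V} (hZ : Z.card ≤ z) {g : (V → A) → K}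
    (hg : g ∈ Dep K Z) {f : (V → A) → K} (hf : f ∈ DegLe K o d) :
    Rd K o pos sat s (g * f) = Rd K o pos sat s (g * Rd K o pos sat s f) := by
  refine Submodule.span_induction (p := fun f _ =>
    Rd K o pos sat s (g * f) = Rd K o pos sat s (g * Rd K o pos sat s f)) ?_ ?_ ?_ ?_ hf
  · rintro f ⟨m, hm, rfl⟩
    have hc : 4 * (sup o m).card ≤ s := by omega
    rw [Rd_chi K o pos sat s hc]
    have hcard : (Z ∪ sup o m).card ≤ d + z := (Finset.card_union_le _ _).trans (by omega)
    have hSc : 4 * (Z ∪ sup o m).card ≤ s := by omega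
    have hTc : (cl pos (Fintype.card P - 2) s (Z ∪ sup o m)).card ≤ s := by
      have := (cl_spec pos hE hSc).2
      omega
    have hcl : cl pos (Fintype.card P - 2) s (sup o m) ⊆
        cl pos (Fintype.card P - 2) s (Z ∪ sup o m) :=
      cl_sub pos hE hSc hc (subset_union_right.trans subset_union_left)
    have e1 : Rd K o pos sat s (g * chi K o m) =
        nf K o (Idl K sat (cl pos (Fintype.card P - 2) s (Z ∪ sup o m)))
          (g * chi K o m) := by
      apply Rd_dep hloc hflex hE hSc hTc (subset_refl _)
      apply Dep_mul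
      · exact Dep_mono K subset_union_left hg
      · exact Dep_mono K subset_union_right (chi_mem_Dep K o m)
    have hreg := nf_chi_mem_Reg K o
      (I := Idl K sat (cl pos (Fintype.card P - 2) s (sup o m)))
      (Y := sup o m ∪ vert pos (cl pos (Fintype.card P - 2) s (sup o m)))
      (fun f hf => Idl_res hloc subset_union_right _ hf) m subset_union_left
    have e2 : ∀ h ∈ Reg K o (Idl K sat (cl pos (Fintype.card P - 2) s (sup o m)))
        (sup o m ∪ vert pos (cl pos (Fintype.card P - 2) s (sup o m))) m,
        Rd K o pos sat s (g * h) =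
          nf K o (Idl K sat (cl pos (Fintype.card P - 2) s (Z ∪ sup o m))) (g * h) := by
      intro h hh
      refine Submodule.span_induction (p := fun h _ => Rd K o pos sat s (g * h) =
          nf K o (Idl K sat (cl pos (Fintype.card P - 2) s (Z ∪ sup o m))) (g * h))
          ?_ ?_ ?_ ?_ hh
      · rintro f ⟨m', -, hrk, hsup, rfl⟩
        have hc' := card_le_of_rk_le o hrk
        have hcard' : (Z ∪ sup o m').card ≤ d + z :=
          (Finset.card_union_le _ _).trans (by omega)
        apply Rd_dep hloc hflex hE (S := Z ∪ sup o m') (by omega) hTc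
        · apply cl_sub pos hE hSc (by omega)
          intro x hx
          rcases mem_union.1 hx with hx | hx
          · exact mem_union_left _ (mem_union_left _ hx)
          · rcases mem_union.1 (hsup hx) with h1 | h1
            · exact mem_union_left _ (mem_union_right _ h1)
            · exact mem_union_right _ (vert_mono pos hcl h1)
        · apply Dep_mul
          · exact Dep_mono K subset_union_left hg
          · exact Dep_mono K subset_union_right (chi_mem_Dep K o m')
      · simp
      · intro x y _ _ hx hy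
        rw [mul_add, map_add, map_add, hx, hy]
      · intro c x _ hx
        rw [mul_smul_comm, map_smul, map_smul, hx]
    rw [e1, e2 _ hreg]
    apply nf_congr
    rw [← mul_sub]
    apply Idl_mul
    exact Idl_mono K sat hcl (sub_nf_mem K o _ _)
  · simp
  · intro x y _ _ hx hy
    rw [mul_add, map_add, hx, hy, ← map_add, ← mul_add, ← map_add]
  · intro c x _ hx
    rw [mul_smul_comm, map_smul, map_smul, mul_smul_comm, map_smul, hx]

theorem Rd_mul_zero (hloc : Local pos sat) (hflex : Flexible pos sat) (hE : Expd pos s)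
    {d z : ℕ} (hd : 4 * (d + z) ≤ s) {Z : Finset V} (hZ : Z.card ≤ z) {g : (V → A) → K}
    (hg : g ∈ Dep K Z) {f : (V → A) → K} (hf : f ∈ DegLe K o d)
    (h0 : Rd K o pos sat s f = 0) :
    Rd K o pos sat s (g * f) = 0 := by
  rw [Rd_mul hloc hflex hE hd hZ hg hf, h0, mul_zero, map_zero]

end Pool.Agent.W939.PC
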