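import Mathlib

/-!
Polynomial calculus on functions on the Boolean cube and the size-degree relation
(Clegg-Edmonds-Impagliazzo, Impagliazzo-Pudlak-Sgall).
-/

set_option linter.unusedSectionVars false
set_option linter.unusedSimpArgs false

namespace Pool.Agent.W939.PC

open Finset

variable {σ : Type} [Fintype σ] [DecidableEq σ]
variable (K : Type) [Field K]

/-- Monomial of the variables in `S`. -/
def mono (S : Finset σ) : (σ → Bool) → K := fun z => if ∀ i ∈ S, z i = true then 1 else 0

/-- Combinations of monomials in `M`. -/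
def Sp (M : Set (Finset σ)) : Submodule K ((σ → Bool) → K) :=
  Submodule.span K {f | ∃ S ∈ M, f = mono K S}

/-- Derivations in which all lines are combinations of monomials in `M`. -/
inductive Drv (Ax : Set ((σ → Bool) → K)) (M : Set (Finset σ)) : ((σ → Bool) → K) → Prop
  | ax (f : (σ → Bool) → K) : f ∈ Ax → f ∈ Sp K M → Drv Ax M f
  | zero : Drv Ax M 0
  | add (f g : (σ → Bool) → K) : Drv Ax M f → Drv Ax M g → Drv Ax M (f + g)
  | smul (c : K) (f : (σ → Bool) → K) : Drv Ax M f → Drv Ax M (c • f)
  | mul (x : σ) (f : (σ → Bool) → K) : Drv Ax M f → mono K {x} * f ∈ Sp K M →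
      Drv Ax M (mono K {x} * f)

/-- Sets of at most `D` variables. -/
def Dg (D : ℕ) : Set (Finset σ) := {S | S.card ≤ D}

variable {K}

theorem mono_mul (S T : Finset σ) : mono K S * mono K T = mono K (S ∪ T) := by
  funext z
  simp only [Pi.mul_apply, mono]
  by_cases h1 : ∀ i ∈ S, z i = true
  · by_cases h2 : ∀ i ∈ T, z i = true
    · rw [if_pos h1, if_pos h2, if_pos, one_mul]
      intro i hi
      rcases mem_union.1 hi with h | h
      · exact h1 i h
      · exact h2 i h
    · rw [if_neg h2, mul_zero, if_neg]
      intro h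
      exact h2 (fun i hi => h i (mem_union_right _ hi))
  · rw [if_neg h1, zero_mul, if_neg]
    intro h
    exact h1 (fun i hi => h i (mem_union_left _ hi))

theorem Sp_mono {M M' : Set (Finset σ)} (h : M ⊆ M') : Sp K M ≤ Sp K M' := by
  apply Submodule.span_mono
  rintro f ⟨S, hS, rfl⟩
  exact ⟨S, h hS, rfl⟩

theorem Drv.mem {Ax : Set ((σ → Bool) → K)} {M : Set (Finset σ)} {f : (σ → Bool) → K}
    (h : Drv K Ax M f) : f ∈ Sp K M := by
  induction h with
  | ax f _ h => exact h
  | zero => exact Submodule.zero_mem _
  | add f g _ _ h1 h2 => exact Submodule.add_mem _ h1 h2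
  | smul c f _ h => exact Submodule.smul_mem _ _ h
  | mul x f _ h _ => exact h

theorem Drv.weaken {Ax : Set ((σ → Bool) → K)} {M M' : Set (Finset σ)} {f : (σ → Bool) → K}
    (hM : M ⊆ M') (h : Drv K Ax M f) : Drv K Ax M' f := by
  induction h with
  | ax f h1 h => exact Drv.ax f h1 (Sp_mono hM h)
  | zero => exact Drv.zero
  | add f g _ _ h1 h2 => exact Drv.add _ _ h1 h2
  | smul c f _ h => exact Drv.smul _ _ h
  | mul x f _ h2 h => exact Drv.mul x f h (Sp_mono hM h2)

variable (K)

/-- Restriction of a variable to a constant. -/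
def rs (x : σ) (c : Bool) : ((σ → Bool) → K) →ₗ[K] ((σ → Bool) → K) :=
  LinearMap.funLeft K K (fun z => Function.update z x c)

variable {K}

theorem rs_apply (x : σ) (c : Bool) (f : (σ → Bool) → K) (z : σ → Bool) :
    rs K x c f z = f (Function.update z x c) := rfl

theorem rs_mul (x : σ) (c : Bool) (f g : (σ → Bool) → K) :
    rs K x c (f * g) = rs K x c f * rs K x c g := rfl

theorem rs_one (x : σ) (c : Bool) : rs K x c 1 = 1 := rfl

theorem rs_false_mono (x : σ) (S : Finset σ) :
    rs K x false (mono K S) = if x ∈ S then 0 else mono K S := by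
  funext z
  rw [rs_apply]
  split_ifs with h
  · unfold mono
    rw [if_neg]
    · rfl
    · intro H
      have := H x h
      simp at this
  · unfold mono
    have : (∀ i ∈ S, Function.update z x false i = true) ↔ (∀ i ∈ S, z i = true) := by
      constructor
      · intro H i hi
        have hix : i ≠ x := by rintro rfl; exact h hi
        have := H i hi
        rwa [Function.update_of_ne hix] at this
      · intro H i hi
        have hix : i ≠ x := by rintro rfl; exact h hi
        rw [Function.update_of_ne hix]
        exact H i hi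
    simp only [this]

theorem rs_true_mono (x : σ) (S : Finset σ) :
    rs K x true (mono K S) = mono K (S.erase x) := by
  funext z
  rw [rs_apply]
  unfold mono
  have : (∀ i ∈ S, Function.update z x true i = true) ↔ (∀ i ∈ S.erase x, z i = true) := by
    constructor
    · intro H i hi
      rw [mem_erase] at hi
      have := H i hi.2
      rwa [Function.update_of_ne hi.1] at this
    · intro H i hi
      by_cases h : i = x
      · subst h; simp
      · rw [Function.update_of_ne h]
        exact H i (mem_erase.2 ⟨h, hi⟩)
  simp only [this]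

theorem rs_false_Sp (x : σ) {M : Set (Finset σ)} {f : (σ → Bool) → K} (hf : f ∈ Sp K M) :
    rs K x false f ∈ Sp K {S | S ∈ M ∧ x ∉ S} := by
  have h1 : Sp K M ≤ (Sp K {S | S ∈ M ∧ x ∉ S}).comap (rs K x false) := by
    apply Submodule.span_le.2
    rintro g ⟨S, hS, rfl⟩
    change rs K x false (mono K S) ∈ Sp K {S | S ∈ M ∧ x ∉ S}
    rw [rs_false_mono]
    split_ifs with h
    · exact Submodule.zero_mem _
    · exact Submodule.subset_span ⟨S, ⟨hS, h⟩, rfl⟩
  exact h1 hf

theorem rs_true_Sp (x : σ) {M : Set (Finset σ)} {f : (σ → Bool) → K} (hf : f ∈ Sp K M) :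
    rs K x true f ∈ Sp K ((fun S => S.erase x) '' M) := by
  have h1 : Sp K M ≤ (Sp K ((fun S => S.erase x) '' M)).comap (rs K x true) := by
    apply Submodule.span_le.2
    rintro g ⟨S, hS, rfl⟩
    change rs K x true (mono K S) ∈ Sp K ((fun S => S.erase x) '' M)
    rw [rs_true_mono]
    exact Submodule.subset_span ⟨_, ⟨S, hS, rfl⟩, rfl⟩
  exact h1 hf

theorem mono_mul_Dg (x : σ) {D : ℕ} {f : (σ → Bool) → K} (hf : f ∈ Sp K (Dg D)) :
    mono K {x} * f ∈ Sp K (Dg (D + 1)) := by
  refine Submodule.span_induction (p := fun f _ => mono K {x} * f ∈ Sp K (Dg (D + 1)))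
    ?_ ?_ ?_ ?_ hf
  · rintro g ⟨S, hS, rfl⟩
    rw [mono_mul]
    apply Submodule.subset_span
    refine ⟨_, ?_, rfl⟩
    have h1 := Finset.card_union_le {x} S
    have h2 : S.card ≤ D := hS
    change ({x} ∪ S).card ≤ D + 1
    simp only [card_singleton] at h1
    omega
  · simp
  · intro f g _ _ h h'
    rw [mul_add]; exact Submodule.add_mem _ h h'
  · intro c f _ h
    rw [mul_smul_comm]; exact Submodule.smul_mem _ _ h

theorem Drv.rs_false {Ax : Set ((σ → Bool) → K)} {M : Set (Finset σ)} (x : σ)
    {f : (σ → Bool) → K} (h : Drv K Ax M f) :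
    Drv K (rs K x false '' Ax) {S | S ∈ M ∧ x ∉ S} (rs K x false f) := by
  induction h with
  | ax f h1 h => exact Drv.ax _ ⟨f, h1, rfl⟩ (rs_false_Sp x h)
  | zero => rw [map_zero]; exact Drv.zero
  | add f g _ _ h1 h2 => rw [map_add]; exact Drv.add _ _ h1 h2
  | smul c f _ h => rw [map_smul]; exact Drv.smul _ _ h
  | mul y f _ h2 h =>
    have h3 := rs_false_Sp x h2
    rw [rs_mul] at h3 ⊢
    by_cases hy : y = x
    · subst hy
      rw [rs_false_mono, if_pos (mem_singleton_self _), zero_mul]
      exact Drv.zero
    · rw [rs_false_mono, if_neg (fun h' => hy (mem_singleton.1 h').symm)] at h3 ⊢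
      exact Drv.mul y _ h h3

theorem Drv.rs_true {Ax : Set ((σ → Bool) → K)} {M : Set (Finset σ)} (x : σ)
    {f : (σ → Bool) → K} (h : Drv K Ax M f) :
    Drv K (rs K x true '' Ax) ((fun S => S.erase x) '' M) (rs K x true f) := by
  induction h with
  | ax f h1 h => exact Drv.ax _ ⟨f, h1, rfl⟩ (rs_true_Sp x h)
  | zero => rw [map_zero]; exact Drv.zero
  | add f g _ _ h1 h2 => rw [map_add]; exact Drv.add _ _ h1 h2
  | smul c f _ h => rw [map_smul]; exact Drv.smul _ _ h
  | mul y f _ h2 h =>
    have h3 := rs_true_Sp x h2
    rw [rs_mul] at h3 ⊢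
    by_cases hy : y = x
    · subst hy
      rw [rs_true_mono]
      have : mono K (({y} : Finset σ).erase y) = 1 := by
        funext z; simp [mono]
      rw [this, one_mul]
      exact h
    · rw [rs_true_mono, Finset.erase_eq_of_notMem
        (fun h' => hy (mem_singleton.1 h').symm)] at h3 ⊢
      exact Drv.mul y _ h h3

theorem Drv.lift_false {Ax : Set ((σ → Bool) → K)} {d0 D : ℕ} (hAx : ∀ p ∈ Ax, p ∈ Sp K (Dg d0))
    (hD : d0 ≤ D) (x : σ) {f : (σ → Bool) → K}
    (h : Drv K (rs K x false '' Ax) (Dg D) f) :
    Drv K Ax (Dg (D + 1)) ((1 - mono K {x}) * f) := by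
  induction h with
  | ax f h1 h =>
    obtain ⟨p, hp, rfl⟩ := h1
    have e1 : (1 - mono K {x}) * rs K x false p = p + (-1 : K) • (mono K {x} * p) := by
      funext z
      simp only [Pi.mul_apply, Pi.sub_apply, Pi.one_apply, Pi.add_apply, Pi.smul_apply,
        smul_eq_mul, rs_apply]
      by_cases hz : z x = true
      · have : mono K {x} z = 1 := by simp [mono, hz]
        rw [this]; ring
      · have hz' : z x = false := by simpa using hz
        have : mono K {x} z = 0 := by simp [mono, hz']
        have h2 : Function.update z x false = z := by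
          rw [← hz']; exact Function.update_eq_self x z
        rw [this, h2]; ring
    rw [e1]
    have hpD : p ∈ Sp K (Dg (D + 1)) := Sp_mono (fun S hS => by
      have : S.card ≤ d0 := hS
      change S.card ≤ D + 1
      omega) (hAx p hp)
    have hpx : mono K {x} * p ∈ Sp K (Dg (D + 1)) := Sp_mono (fun S hS => by
      have : S.card ≤ d0 + 1 := hS
      change S.card ≤ D + 1
      omega) (mono_mul_Dg x (hAx p hp))
    exact Drv.add _ _ (Drv.ax p hp hpD) (Drv.smul _ _ (Drv.mul x p (Drv.ax p hp hpD) hpx))
  | zero => rw [mul_zero]; exact Drv.zero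
  | add f g _ _ h1 h2 => rw [mul_add]; exact Drv.add _ _ h1 h2
  | smul c f _ h => rw [mul_smul_comm]; exact Drv.smul _ _ h
  | mul y f _ h2 h =>
    have e1 : (1 - mono K {x}) * (mono K {y} * f) = mono K {y} * ((1 - mono K {x}) * f) := by
      ring
    rw [e1]
    apply Drv.mul y _ h
    rw [← e1, sub_mul, one_mul]
    apply Submodule.sub_mem
    · exact Sp_mono (fun S hS => by
        have : S.card ≤ D := hS
        change S.card ≤ D + 1
        omega) h2
    · exact mono_mul_Dg x h2

theorem drv_mono_mul {Ax : Set ((σ → Bool) → K)} {D : ℕ} {x : σ}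
    (hx : Drv K Ax (Dg D) (1 - mono K {x})) (S : Finset σ) :
    S.card + 1 ≤ D → Drv K Ax (Dg D) (mono K S * (1 - mono K {x})) := by
  induction S using Finset.induction_on with
  | empty =>
    intro _
    have : mono K (∅ : Finset σ) = 1 := by funext z; simp [mono]
    rw [this, one_mul]
    exact hx
  | insert y S hy ih =>
    intro hc
    rw [card_insert_of_notMem hy] at hc
    have e1 : mono K (insert y S) * (1 - mono K {x}) =
        mono K {y} * (mono K S * (1 - mono K {x})) := by
      rw [← mul_assoc, mono_mul]
      rfl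
    rw [e1]
    apply Drv.mul y _ (ih (by omega))
    rw [← e1, mul_sub, mul_one, mono_mul]
    apply Submodule.sub_mem
    · apply Submodule.subset_span
      refine ⟨_, ?_, rfl⟩
      change (insert y S).card ≤ D
      rw [card_insert_of_notMem hy]; omega
    · apply Submodule.subset_span
      refine ⟨_, ?_, rfl⟩
      change (insert y S ∪ {x}).card ≤ D
      have := Finset.card_union_le (insert y S) {x}
      rw [card_insert_of_notMem hy, card_singleton] at this
      omega

theorem Drv.comb {Ax : Set ((σ → Bool) → K)} {d0 D : ℕ} (hAx : ∀ p ∈ Ax, p ∈ Sp K (Dg d0))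
    (hD : d0 ≤ D) {x : σ} (hx : Drv K Ax (Dg D) (1 - mono K {x})) {f : (σ → Bool) → K}
    (h : Drv K (rs K x true '' Ax) (Dg D) f) : Drv K Ax (Dg D) f := by
  induction h with
  | ax f h1 h =>
    obtain ⟨p, hp, rfl⟩ := h1
    have hpD : p ∈ Sp K (Dg D) := Sp_mono (fun S hS => by
      have : S.card ≤ d0 := hS
      change S.card ≤ D
      omega) (hAx p hp)
    have key : ∀ g ∈ Sp K (Dg d0 : Set (Finset σ)), Drv K Ax (Dg D) (rs K x true g - g) := by
      intro g hg
      refine Submodule.span_induction (p := fun g _ => Drv K Ax (Dg D) (rs K x true g - g))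
        ?_ ?_ ?_ ?_ hg
      · rintro g ⟨S, hS, rfl⟩
        have hS' : S.card ≤ d0 := hS
        rw [rs_true_mono]
        by_cases hxS : x ∈ S
        · have e1 : mono K (S.erase x) - mono K S = mono K (S.erase x) * (1 - mono K {x}) := by
            rw [mul_sub, mul_one, mono_mul]
            congr 2
            ext i
            simp only [mem_union, mem_erase, mem_singleton]
            by_cases h : i = x
            · subst h; simp [hxS]
            · simp [h]
          rw [e1]
          apply drv_mono_mul hx
          rw [card_erase_of_mem hxS]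
          have : 0 < S.card := card_pos.2 ⟨x, hxS⟩
          omega
        · rw [erase_eq_of_notMem hxS, sub_self]
          exact Drv.zero
      · simp only [map_zero, sub_self]
        exact Drv.zero
      · intro f g _ _ h h'
        have : rs K x true (f + g) - (f + g) = (rs K x true f - f) + (rs K x true g - g) := by
          rw [map_add]; ring
        rw [this]
        exact Drv.add _ _ h h'
      · intro c f _ h
        rw [map_smul, ← smul_sub]
        exact Drv.smul _ _ h
    have e2 : rs K x true p = p + (rs K x true p - p) := by ring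
    rw [e2]
    exact Drv.add _ _ (Drv.ax p hp hpD) (key p (hAx p hp))
  | zero => exact Drv.zero
  | add f g _ _ h1 h2 => exact Drv.add _ _ h1 h2
  | smul c f _ h => exact Drv.smul _ _ h
  | mul y f _ h2 h => exact Drv.mul y f h h2

/-- The size-degree relation. -/
theorem size_degree {d0 d D n : ℕ} (hd0 : d0 ≤ D) (hd : d ≤ D) (hn : 0 < n) (hdn : d ≤ n)
    (b : ℕ) : ∀ (k : ℕ) (X : Finset σ) (Ax : Set ((σ → Bool) → K)) (M : Finset (Finset σ)),
    X.card = k → k ≤ n → (∀ S ∈ M, S ⊆ X) → (∀ p ∈ Ax, p ∈ Sp K (Dg d0)) →
    Drv K Ax (M : Set (Finset σ)) 1 →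
    ((M.filter (fun S => d < S.card)).card : ℝ) * (1 - (d : ℝ) / n) ^ b < 1 →
    Drv K Ax (Dg (D + b)) 1 := by
  have hn' : (0 : ℝ) < n := by exact_mod_cast hn
  have hq0 : 0 ≤ 1 - (d : ℝ) / n := by
    rw [sub_nonneg, div_le_one hn']
    exact_mod_cast hdn
  have hbase : ∀ (b : ℕ) (Ax : Set ((σ → Bool) → K)) (M : Finset (Finset σ)),
      Drv K Ax (M : Set (Finset σ)) 1 → (M.filter (fun S => d < S.card)) = ∅ →
      Drv K Ax (Dg (D + b)) 1 := by
    intro b Ax M h hM
    refine Drv.weaken ?_ h
    intro S hS
    change S.card ≤ D + b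
    by_contra hc
    have : S ∈ M.filter (fun S => d < S.card) := by
      rw [mem_filter]; exact ⟨hS, by omega⟩
    rw [hM] at this
    simp at this
  induction b with
  | zero =>
    intro k X Ax M _ _ _ _ h hfat
    apply hbase 0 Ax M h
    rw [pow_zero, mul_one] at hfat
    have : (M.filter (fun S => d < S.card)).card < 1 := by exact_mod_cast hfat
    rw [← Finset.card_eq_zero]; omega
  | succ b ihb =>
    intro k
    induction k with
    | zero =>
      intro X Ax M hX _ hsub _ h _
      apply hbase (b + 1) Ax M h
      rw [Finset.filter_eq_empty_iff]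
      intro S hS
      have h1 := Finset.card_le_card (hsub S hS)
      omega
    | succ k ihk =>
      intro X Ax M hX hk hsub hAx h hfat
      by_cases hM : M.filter (fun S => d < S.card) = ∅
      · exact hbase (b + 1) Ax M h hM
      · set F := M.filter (fun S => d < S.card) with hF
        -- choose a variable
        have hex : ∃ x ∈ X, d * F.card ≤ n * (F.filter (fun S => x ∈ S)).card := by
          by_contra hcon
          push Not at hcon
          have hXne : X.Nonempty := Finset.card_pos.1 (by omega)
          have h1 : ∑ x ∈ X, n * (F.filter (fun S => x ∈ S)).card < ∑ _x ∈ X, d * F.card :=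
            Finset.sum_lt_sum_of_nonempty hXne hcon
          rw [← Finset.mul_sum, Finset.sum_const, smul_eq_mul] at h1
          have h2 : ∑ x ∈ X, (F.filter (fun S => x ∈ S)).card = ∑ S ∈ F, S.card := by
            have : ∀ S ∈ F, S.card = (X.filter (fun x => x ∈ S)).card := by
              intro S hS
              congr 1
              ext x
              rw [mem_filter]
              exact ⟨fun hx => ⟨hsub S (mem_filter.1 hS).1 hx, hx⟩, fun hx => hx.2⟩
            rw [Finset.sum_congr rfl this]
            exact Finset.sum_card_bipartiteAbove_eq_sum_card_bipartiteBelow (fun x S => x ∈ S)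
          have h3 : F.card * d ≤ ∑ S ∈ F, S.card := by
            rw [← smul_eq_mul, ← Finset.sum_const]
            apply Finset.sum_le_sum
            intro S hS
            exact (mem_filter.1 hS).2.le
          rw [h2] at h1
          have h4 : n * (F.card * d) ≤ n * ∑ S ∈ F, S.card := Nat.mul_le_mul_left _ h3
          have h5 : X.card * (d * F.card) ≤ n * (d * F.card) :=
            Nat.mul_le_mul_right _ (by omega)
          have h6 : n * (F.card * d) = n * (d * F.card) := by ring
          omega
        obtain ⟨x, hxX, hx⟩ := hex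
        -- restriction to 0
        have r0 : Drv K (rs K x false '' Ax) (Dg (D + b)) 1 := by
          apply ihb X.card X _ (M.filter (fun S => x ∉ S)) rfl (by omega)
          · intro S hS
            exact hsub S (mem_filter.1 hS).1
          · rintro p ⟨p', hp', rfl⟩
            refine Sp_mono ?_ (rs_false_Sp x (hAx p' hp'))
            rintro S ⟨hS, -⟩
            exact hS
          · have := h.rs_false x
            rw [rs_one] at this
            refine Drv.weaken ?_ this
            rintro S ⟨hS, hS'⟩
            rw [mem_coe, mem_filter]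
            exact ⟨hS, hS'⟩
          · have e1 : ((M.filter (fun S => x ∉ S)).filter (fun S => d < S.card)).card +
                (F.filter (fun S => x ∈ S)).card = F.card := by
              rw [Finset.filter_comm, ← hF, add_comm]
              exact Finset.card_filter_add_card_filter_not (fun S => x ∈ S)
            have e2 : (((M.filter (fun S => x ∉ S)).filter (fun S => d < S.card)).card : ℝ) ≤
                F.card * (1 - (d : ℝ) / n) := by
              have e3 : (((M.filter (fun S => x ∉ S)).filter (fun S => d < S.card)).card : ℝ) =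
                  F.card - (F.filter (fun S => x ∈ S)).card := by
                rw [← e1]; push_cast; ring
              have e4 : (d : ℝ) * F.card ≤ n * (F.filter (fun S => x ∈ S)).card := by
                exact_mod_cast hx
              rw [e3]
              have e5 : (F.card : ℝ) * ((d : ℝ) / n) ≤ (F.filter (fun S => x ∈ S)).card := by
                rw [← mul_div_assoc, div_le_iff₀ hn']
                linarith
              linarith
            refine lt_of_le_of_lt (mul_le_mul_of_nonneg_right e2 (pow_nonneg hq0 b)) ?_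
            rw [mul_assoc, ← pow_succ']
            exact hfat
        have r0' : Drv K Ax (Dg (D + (b + 1))) (1 - mono K {x}) := by
          have := r0.lift_false hAx (by omega) x
          rw [mul_one] at this
          exact this
        -- restriction to 1
        have r1 : Drv K (rs K x true '' Ax) (Dg (D + (b + 1))) 1 := by
          apply ihk (X.erase x) _ (M.image (fun S => S.erase x))
          · rw [card_erase_of_mem hxX, hX]; rfl
          · omega
          · intro S hS
            obtain ⟨S', hS', rfl⟩ := mem_image.1 hS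
            exact erase_subset_erase x (hsub S' hS')
          · rintro p ⟨p', hp', rfl⟩
            refine Sp_mono ?_ (rs_true_Sp x (hAx p' hp'))
            rintro S ⟨S', hS', rfl⟩
            have h1 : S'.card ≤ d0 := hS'
            change (S'.erase x).card ≤ d0
            exact (Finset.card_erase_le).trans h1
          · have := h.rs_true x
            rw [rs_one] at this
            refine Drv.weaken ?_ this
            rintro S ⟨S', hS', rfl⟩
            rw [coe_image]
            exact ⟨S', hS', rfl⟩
          · refine lt_of_le_of_lt (mul_le_mul_of_nonneg_right ?_ (pow_nonneg hq0 _)) hfat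
            have : (M.image (fun S => S.erase x)).filter (fun S => d < S.card) ⊆
                F.image (fun S => S.erase x) := by
              intro S hS
              rw [mem_filter] at hS
              obtain ⟨S', hS', rfl⟩ := mem_image.1 hS.1
              apply mem_image_of_mem
              rw [hF, mem_filter]
              exact ⟨hS', lt_of_lt_of_le hS.2 Finset.card_erase_le⟩
            have h1 := (Finset.card_le_card this).trans Finset.card_image_le
            exact_mod_cast h1
        exact Drv.comb hAx (by omega) r0' r1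

variable (K)

/-- Restriction of the variables in `Z` to the constants `ρ`. -/
def rsZ (Z : Finset σ) (ρ : σ → Bool) : ((σ → Bool) → K) →ₗ[K] ((σ → Bool) → K) :=
  LinearMap.funLeft K K (fun z x => if x ∈ Z then ρ x else z x)

variable {K}

theorem rsZ_apply (Z : Finset σ) (ρ : σ → Bool) (f : (σ → Bool) → K) (z : σ → Bool) :
    rsZ K Z ρ f z = f (fun x => if x ∈ Z then ρ x else z x) := rfl

theorem rsZ_mul (Z : Finset σ) (ρ : σ → Bool) (f g : (σ → Bool) → K) :
    rsZ K Z ρ (f * g) = rsZ K Z ρ f * rsZ K Z ρ g := rfl

theorem rsZ_one (Z : Finset σ) (ρ : σ → Bool) : rsZ K Z ρ 1 = 1 := rfl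

theorem rsZ_mono (Z : Finset σ) (ρ : σ → Bool) (S : Finset σ) :
    rsZ K Z ρ (mono K S) = if (∀ x ∈ S, x ∈ Z → ρ x = true) then mono K (S \ Z) else 0 := by
  funext z
  rw [rsZ_apply]
  split_ifs with h
  · unfold mono
    have : (∀ i ∈ S, (if i ∈ Z then ρ i else z i) = true) ↔ (∀ i ∈ S \ Z, z i = true) := by
      constructor
      · intro H i hi
        rw [mem_sdiff] at hi
        have := H i hi.1
        rwa [if_neg hi.2] at this
      · intro H i hi
        by_cases hZ : i ∈ Z
        · rw [if_pos hZ]; exact h i hi hZ
        · rw [if_neg hZ]; exact H i (mem_sdiff.2 ⟨hi, hZ⟩)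
    simp only [this]
  · unfold mono
    rw [if_neg]
    · rfl
    · intro H
      apply h
      intro x hx hZ
      have h2 := H x hx
      simpa [hZ] using h2

theorem rsZ_Sp (Z : Finset σ) (ρ : σ → Bool) {M : Set (Finset σ)} {f : (σ → Bool) → K}
    (hf : f ∈ Sp K M) : rsZ K Z ρ f ∈ Sp K ((fun S => S \ Z) '' M) := by
  have h1 : Sp K M ≤ (Sp K ((fun S => S \ Z) '' M)).comap (rsZ K Z ρ) := by
    apply Submodule.span_le.2
    rintro g ⟨S, hS, rfl⟩
    change rsZ K Z ρ (mono K S) ∈ Sp K ((fun S => S \ Z) '' M)
    rw [rsZ_mono]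
    split_ifs
    · exact Submodule.subset_span ⟨_, ⟨S, hS, rfl⟩, rfl⟩
    · exact Submodule.zero_mem _
  exact h1 hf

theorem Drv.restrict {Ax : Set ((σ → Bool) → K)} {M : Set (Finset σ)} (Z : Finset σ)
    (ρ : σ → Bool) {f : (σ → Bool) → K} (h : Drv K Ax M f) :
    Drv K (rsZ K Z ρ '' Ax) ((fun S => S \ Z) '' M) (rsZ K Z ρ f) := by
  induction h with
  | ax f h1 h => exact Drv.ax _ ⟨f, h1, rfl⟩ (rsZ_Sp Z ρ h)
  | zero => rw [map_zero]; exact Drv.zero
  | add f g _ _ h1 h2 => rw [map_add]; exact Drv.add _ _ h1 h2
  | smul c f _ h => rw [map_smul]; exact Drv.smul _ _ h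
  | mul y f _ h2 h =>
    have h3 := rsZ_Sp Z ρ h2
    rw [rsZ_mul] at h3 ⊢
    rw [rsZ_mono] at h3 ⊢
    by_cases hc : ∀ x ∈ ({y} : Finset σ), x ∈ Z → ρ x = true
    · rw [if_pos hc] at h3 ⊢
      by_cases hy : y ∈ Z
      · have : mono K (({y} : Finset σ) \ Z) = 1 := by
          have : ({y} : Finset σ) \ Z = ∅ := by
            rw [Finset.sdiff_eq_empty_iff_subset]; simpa using hy
          rw [this]
          funext z; simp [mono]
        rw [this, one_mul]
        exact h
      · have : ({y} : Finset σ) \ Z = {y} := by
          rw [Finset.sdiff_eq_self_iff_disjoint]; simpa using hy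
        rw [this] at h3 ⊢
        exact Drv.mul y _ h h3
    · rw [if_neg hc, zero_mul]
      exact Drv.zero

end Pool.Agent.W939.PC
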