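import Mathlib
import Pool.Agent.W939.PC.Core
import Pool.Agent.W939.PC.Cube

/-!
Polynomial calculus for polynomials, the passage to functions on labelings, and the general lower
bound for degree and size.
-/

set_option linter.unusedSectionVars false
set_option linter.unusedSimpArgs false

namespace Pool.Agent.W939.PC

open Finset

/-- Polynomial calculus: the polynomials which can be derived from the axioms `Ax` by linear
combinations and multiplication by variables, where all lines are combinations of monomials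
in `M`. -/
inductive Derives {σ F : Type} [Field F] (Ax : Set (MvPolynomial σ F)) (M : Set (σ →₀ ℕ)) :
    MvPolynomial σ F → Prop
  | ax (p : MvPolynomial σ F) : p ∈ Ax → (p.support : Set (σ →₀ ℕ)) ⊆ M → Derives Ax M p
  | add (p q : MvPolynomial σ F) : Derives Ax M p → Derives Ax M q → Derives Ax M (p + q)
  | smul (c : F) (p : MvPolynomial σ F) : Derives Ax M p → Derives Ax M (MvPolynomial.C c * p)
  | mul (x : σ) (p : MvPolynomial σ F) : Derives Ax M p →
      ((MvPolynomial.X x * p).support : Set (σ →₀ ℕ)) ⊆ M → Derives Ax M (MvPolynomial.X x * p)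

section cube

variable {σ : Type} [Fintype σ] [DecidableEq σ] {K : Type} [Field K]

/-- A 0/1 vector. -/
def bv (K : Type) [Field K] (z : σ → Bool) : σ → K := fun i => if z i = true then 1 else 0

/-- The function of a polynomial on the cube. -/
noncomputable def toCube (p : MvPolynomial σ K) : (σ → Bool) → K := fun z => MvPolynomial.eval (bv K z) p

theorem toCube_monomial (m : σ →₀ ℕ) (c : K) :
    toCube (MvPolynomial.monomial m c) = c • mono K m.support := by
  funext z
  simp only [toCube, MvPolynomial.eval_monomial, Pi.smul_apply, smul_eq_mul, mono]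
  congr 1
  split_ifs with h
  · apply Finset.prod_eq_one
    intro i hi
    simp [bv, h i hi]
  · push Not at h
    obtain ⟨i, hi, hz⟩ := h
    apply Finset.prod_eq_zero hi
    have : bv K z i = 0 := by simp [bv, hz]
    change bv K z i ^ m i = 0
    rw [this]
    exact zero_pow (Finsupp.mem_support_iff.1 hi)

theorem toCube_sum (p : MvPolynomial σ K) :
    toCube p = ∑ m ∈ p.support, p.coeff m • mono K m.support := by
  conv_lhs => rw [MvPolynomial.as_sum p]
  funext z
  have h1 : ∀ m : σ →₀ ℕ, ∀ c : K, MvPolynomial.eval (bv K z) (MvPolynomial.monomial m c) =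
      (c • mono K m.support) z := fun m c => congrFun (toCube_monomial m c) z
  simp only [toCube, map_sum, Finset.sum_apply, h1]

theorem toCube_mem {p : MvPolynomial σ K} {M : Set (σ →₀ ℕ)}
    (h : (p.support : Set (σ →₀ ℕ)) ⊆ M) : toCube p ∈ Sp K (Finsupp.support '' M) := by
  rw [toCube_sum]
  apply Submodule.sum_mem
  intro m hm
  apply Submodule.smul_mem
  exact Submodule.subset_span ⟨_, ⟨m, h hm, rfl⟩, rfl⟩

theorem toCube_Dg {p : MvPolynomial σ K} {d : ℕ} (h : p.totalDegree ≤ d) :
    toCube p ∈ Sp K (Dg d) := by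
  rw [toCube_sum]
  apply Submodule.sum_mem
  intro m hm
  apply Submodule.smul_mem
  refine Submodule.subset_span ⟨_, ?_, rfl⟩
  change m.support.card ≤ d
  have h1 := MvPolynomial.le_totalDegree hm
  refine le_trans ?_ (h1.trans h)
  rw [Finsupp.sum, Finset.card_eq_sum_ones]
  apply Finset.sum_le_sum
  intro i hi
  exact Nat.one_le_iff_ne_zero.2 (Finsupp.mem_support_iff.1 hi)

theorem Derives.toDrv {Ax : Set (MvPolynomial σ K)} {M : Set (σ →₀ ℕ)} {p : MvPolynomial σ K}
    (h : Derives Ax M p) : Drv K (toCube '' Ax) (Finsupp.support '' M) (toCube p) := by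
  induction h with
  | ax p h1 h2 => exact Drv.ax _ ⟨p, h1, rfl⟩ (toCube_mem h2)
  | add p q _ _ h1 h2 =>
    have : toCube (p + q) = toCube p + toCube q := by funext z; simp [toCube]
    rw [this]; exact Drv.add _ _ h1 h2
  | smul c p _ h =>
    have : toCube (MvPolynomial.C c * p) = c • toCube p := by funext z; simp [toCube]
    rw [this]; exact Drv.smul _ _ h
  | mul x p _ h2 h =>
    have : toCube (MvPolynomial.X x * p) = mono K {x} * toCube p := by
      funext z; simp [toCube, bv, mono]
    have h3 := toCube_mem h2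
    rw [this] at h3 ⊢
    exact Drv.mul x _ h h3

end cube

section pull

variable {V A : Type} [Fintype V] [DecidableEq V] [Fintype A] [DecidableEq A]
variable {B P : Type} [Fintype B] [DecidableEq B] [Fintype P] [DecidableEq P]
variable {σ : Type} [Fintype σ] [DecidableEq σ]
variable (K : Type) [Field K] (o : A) (oh : (V → A) → (σ → Bool))

/-- Evaluate at the vectors given by labelings. -/
def pull : ((σ → Bool) → K) →ₗ[K] ((V → A) → K) := LinearMap.funLeft K K oh

theorem pull_apply (f : (σ → Bool) → K) (y : V → A) : pull K oh f y = f (oh y) := rfl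

theorem pull_mul (f g : (σ → Bool) → K) : pull K oh (f * g) = pull K oh f * pull K oh g := rfl

/-- The coordinate `x` of the vector of a labeling depends only on the labels of `dep x`. -/
def DepOn (dep : σ → Finset V) : Prop :=
  ∀ x (y y' : V → A), (∀ v ∈ dep x, y v = y' v) → oh y x = oh y' x

variable {oh} {dep : σ → Finset V} (hdep : DepOn oh dep) {z : ℕ}

include hdep in
theorem pull_mono (S : Finset σ) : pull K oh (mono K S) ∈ Dep K (S.biUnion dep) := by
  intro y y' h
  rw [pull_apply, pull_apply]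
  unfold mono
  have h1 : ∀ i ∈ S, oh y i = oh y' i := by
    intro i hi
    exact hdep i y y' (fun v hv => h v (mem_biUnion.2 ⟨i, hi, hv⟩))
  have : (∀ i ∈ S, oh y i = true) ↔ (∀ i ∈ S, oh y' i = true) := by
    constructor
    · intro H i hi
      rw [← h1 i hi]; exact H i hi
    · intro H i hi
      rw [h1 i hi]; exact H i hi
  simp only [this]

include hdep in
theorem pull_Sp (hz : ∀ x, (dep x).card ≤ z) {D : ℕ} {f : (σ → Bool) → K}
    (hf : f ∈ Sp K (Dg D)) : pull K oh f ∈ DegLe K o (D * z) := by
  have h1 : Sp K (Dg D) ≤ (DegLe K o (D * z)).comap (pull K oh) := by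
    apply Submodule.span_le.2
    rintro g ⟨S, hS, rfl⟩
    have hS' : S.card ≤ D := hS
    refine Dep_le_DegLe K o ?_ (pull_mono K hdep S)
    calc (S.biUnion dep).card ≤ S.card * z := Finset.card_biUnion_le_card_mul _ _ _ (fun x _ => hz x)
      _ ≤ D * z := Nat.mul_le_mul_right _ hS'
  exact h1 hf

variable {K} {pos : B → P → V} {sat : B → (V → A) → Prop} {s : ℕ}

include hdep in
theorem Rd_drv (hz : ∀ x, (dep x).card ≤ z) (hloc : Local pos sat) (hflex : Flexible pos sat)
    (hE : Expd pos s) {D : ℕ} (hD : 4 * (D * z + z) ≤ s) {Ax : Set ((σ → Bool) → K)}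
    (hAx : ∀ p ∈ Ax, Rd K o pos sat s (pull K oh p) = 0) {f : (σ → Bool) → K}
    (h : Drv K Ax (Dg D) f) : Rd K o pos sat s (pull K oh f) = 0 := by
  induction h with
  | ax f h1 _ => exact hAx f h1
  | zero => rw [map_zero, map_zero]
  | add f g _ _ h1 h2 => rw [map_add, map_add, h1, h2, add_zero]
  | smul c f _ h => rw [map_smul, map_smul, h, smul_zero]
  | mul x f h1 _ h =>
    rw [pull_mul]
    apply Rd_mul_zero hloc hflex hE hD (hz x) _ (pull_Sp K o hdep hz h1.mem) h
    have := pull_mono K hdep {x}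
    rwa [singleton_biUnion] at this

include hdep in
theorem not_drv (hz : ∀ x, (dep x).card ≤ z) (hloc : Local pos sat) (hflex : Flexible pos sat)
    (hE : Expd pos s) {D : ℕ} (hD : 4 * (D * z + z) ≤ s) {Ax : Set ((σ → Bool) → K)}
    (hAx : ∀ p ∈ Ax, Rd K o pos sat s (pull K oh p) = 0) : ¬ Drv K Ax (Dg D) 1 := by
  intro h
  have h1 := Rd_drv o hdep hz hloc hflex hE hD hAx h
  have h2 : pull K oh (1 : (σ → Bool) → K) = 1 := rfl
  rw [h2, Rd_one hloc hflex hE] at h1
  have h3 := congrFun h1 (fun _ => o)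
  simp at h3

include hdep in
/-- General lower bound for degree and size. -/
theorem lower (hz : ∀ x, (dep x).card ≤ z) (hloc : Local pos sat) (hflex : Flexible pos sat)
    (hE : Expd pos s) (X : Finset σ) (ρ : σ → Bool) (hρ : ∀ x ∉ X, ∀ y, oh y x = ρ x)
    {e n : ℕ} (hs : 4 * (4 * e * z + z) ≤ s) (hX : X.card ≤ n) (hn : 2 * e ≤ n) (hn0 : 0 < n)
    {Ax : Set (MvPolynomial σ K)} (hdeg : ∀ p ∈ Ax, p.totalDegree ≤ 2 * e)
    (hAx : ∀ p ∈ Ax, Rd K o pos sat s (pull K oh (toCube p)) = 0)
    (M : Finset (σ →₀ ℕ)) (h : Derives Ax (M : Set (σ →₀ ℕ)) 1) :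
    (∃ m ∈ M, 4 * e < m.degree) ∧ Real.exp (4 * (e : ℝ) ^ 2 / (n : ℝ)) ≤ M.card := by
  have h1 := h.toDrv
  have h1' : toCube (1 : MvPolynomial σ K) = 1 := by funext z; simp [toCube]
  rw [h1'] at h1
  constructor
  · by_contra hcon
    push Not at hcon
    have hno := not_drv (D := 4 * e) o hdep hz hloc hflex hE hs
      (Ax := toCube '' Ax) (by rintro p ⟨p', hp', rfl⟩; exact hAx p' hp')
    apply hno
    refine Drv.weaken ?_ h1
    rintro S ⟨m, hm, rfl⟩
    change m.support.card ≤ 4 * e
    refine le_trans ?_ (hcon m hm)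
    rw [Finsupp.degree_apply, Finset.card_eq_sum_ones]
    apply Finset.sum_le_sum
    intro i hi
    exact Nat.one_le_iff_ne_zero.2 (Finsupp.mem_support_iff.1 hi)
  · by_contra hcon
    push Not at hcon
    have hrs : ∀ p : (σ → Bool) → K, pull K oh (rsZ K Xᶜ ρ p) = pull K oh p := by
      intro p
      funext y
      rw [pull_apply, rsZ_apply, pull_apply]
      congr 1
      funext x
      split_ifs with hx
      · exact (hρ x (mem_compl.1 hx) y).symm
      · rfl
    have hno := not_drv (D := 4 * e) o hdep hz hloc hflex hE hs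
      (Ax := rsZ K Xᶜ ρ '' (toCube '' Ax)) (by
        rintro p ⟨p', ⟨p'', hp'', rfl⟩, rfl⟩
        rw [hrs]
        exact hAx p'' hp'')
    apply hno
    have h2 := h1.restrict Xᶜ ρ
    rw [rsZ_one] at h2
    have hn' : (0 : ℝ) < n := by exact_mod_cast hn0
    have := size_degree (d0 := 2 * e) (d := 2 * e) (D := 2 * e) (n := n) le_rfl le_rfl hn0 hn
      (2 * e) X.card X (rsZ K Xᶜ ρ '' (toCube '' Ax))
      ((M.image Finsupp.support).image (fun S => S \ Xᶜ)) rfl hX
      (by
        intro S hS
        obtain ⟨S', -, rfl⟩ := mem_image.1 hS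
        intro x hx
        rw [mem_sdiff, mem_compl, not_not] at hx
        exact hx.2)
      (by
        rintro p ⟨p', ⟨p'', hp'', rfl⟩, rfl⟩
        refine Sp_mono ?_ (rsZ_Sp Xᶜ ρ (toCube_Dg (hdeg p'' hp'')))
        rintro S ⟨S', hS', rfl⟩
        have h3 : S'.card ≤ 2 * e := hS'
        change (S' \ Xᶜ).card ≤ 2 * e
        exact (Finset.card_le_card sdiff_subset).trans h3)
      (by rw [coe_image, coe_image]; exact h2) ?_
    · rw [show 4 * e = 2 * e + 2 * e by ring]
      exact this
    · have hM : ((((M.image Finsupp.support).image (fun S => S \ Xᶜ)).filter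
          (fun S => 2 * e < S.card)).card : ℝ) ≤ M.card := by
        exact_mod_cast (Finset.card_filter_le _ _).trans
          (Finset.card_image_le.trans Finset.card_image_le)
      have hq : (1 - ((2 * e : ℕ) : ℝ) / n) ≤ Real.exp (-(((2 * e : ℕ) : ℝ) / n)) := by
        have := Real.add_one_le_exp (-(((2 * e : ℕ) : ℝ) / n))
        linarith
      have hq0 : 0 ≤ 1 - ((2 * e : ℕ) : ℝ) / n := by
        rw [sub_nonneg, div_le_one hn']
        exact_mod_cast hn
      have hpow : (1 - ((2 * e : ℕ) : ℝ) / n) ^ (2 * e) ≤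
          Real.exp (-(4 * (e : ℝ) ^ 2 / n)) := by
        refine (pow_le_pow_left₀ hq0 hq _).trans ?_
        rw [← Real.exp_nat_mul]
        apply le_of_eq
        congr 1
        push_cast
        ring
      calc ((((M.image Finsupp.support).image (fun S => S \ Xᶜ)).filter
          (fun S => 2 * e < S.card)).card : ℝ) * (1 - ((2 * e : ℕ) : ℝ) / n) ^ (2 * e)
          ≤ M.card * Real.exp (-(4 * (e : ℝ) ^ 2 / n)) :=
            mul_le_mul hM hpow (pow_nonneg hq0 _) (Nat.cast_nonneg _)
        _ < Real.exp (4 * (e : ℝ) ^ 2 / n) * Real.exp (-(4 * (e : ℝ) ^ 2 / n)) :=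
            mul_lt_mul_of_pos_right hcon (Real.exp_pos _)
        _ = 1 := by rw [← Real.exp_add, add_neg_cancel, Real.exp_zero]

end pull

end Pool.Agent.W939.PC
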