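import Mathlib
import Pool.Agent.W939.PC.Poly

/-!
Unique games: the axioms of polynomial calculus which express that at most `t` constraints are
violated (sequential counters), and their behaviour under the reduction operator.
-/

set_option linter.unusedSectionVars false
set_option linter.unusedSimpArgs false

namespace Pool.Agent.W939.PC

open Finset

/-- A constraint of a unique game: left vertex, right vertex, permutation of the labels. -/
abbrev Con (N q : ℕ) := Fin N × Fin N × Equiv.Perm (Fin q)

/-- The constraint `c` is violated by the labeling `y`. -/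
def Vio {N q : ℕ} (c : Con N q) (y : Fin N ⊕ Fin N → Fin q) : Prop :=
  c.2.2 (y (Sum.inl c.1)) ≠ y (Sum.inr c.2.1)

instance {N q : ℕ} (c : Con N q) (y : Fin N ⊕ Fin N → Fin q) : Decidable (Vio c y) := by
  unfold Vio; infer_instance

/-- The variables: `(Sum.inl (v, a), true)` says that the vertex `v` has the label `a`,
`(Sum.inr (i, j), true)` that at least `j` of the first `i` constraints are violated; the
variables with `false` are the negations. -/
abbrev Lit (N q M t : ℕ) := (((Fin N ⊕ Fin N) × Fin q) ⊕ (Fin (M + 1) × Fin (t + 2))) × Bool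

section defs

variable (F : Type) [Field F] {N q : ℕ} (M t : ℕ)

/-- The variable the vertex `v` has the label `a`. -/
noncomputable def lab (v : Fin N ⊕ Fin N) (a : Fin q) : MvPolynomial (Lit N q M t) F :=
  MvPolynomial.X (Sum.inl (v, a), true)

/-- The variable at least `j` of the first `i` constraints are violated. -/
noncomputable def cnt (N q : ℕ) {M t : ℕ} (i : Fin (M + 1)) (j : Fin (t + 2)) :
    MvPolynomial (Lit N q M t) F :=
  MvPolynomial.X (Sum.inr (i, j), true)

/-- The polynomial which indicates that a constraint is violated. -/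
noncomputable def vioPoly (c : Con N q) : MvPolynomial (Lit N q M t) F :=
  1 - ∑ a : Fin q, lab F M t (Sum.inl c.1) a * lab F M t (Sum.inr c.2.1) (c.2.2 a)

/-- The axioms which say that at most `t` of the `M` constraints are violated: the variables are
Boolean, every vertex has exactly one label, and the counters count the violated constraints. -/
inductive CountAx {M : ℕ} (G : Fin M → Con N q) (t : ℕ) : MvPolynomial (Lit N q M t) F → Prop
  | bool (x : Lit N q M t) : CountAx G t (MvPolynomial.X x ^ 2 - MvPolynomial.X x)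
  | neg (w : ((Fin N ⊕ Fin N) × Fin q) ⊕ (Fin (M + 1) × Fin (t + 2))) :
      CountAx G t (MvPolynomial.X (w, true) + MvPolynomial.X (w, false) - 1)
  | uniq (v : Fin N ⊕ Fin N) (a b : Fin q) : a ≠ b →
      CountAx G t (lab F M t v a * lab F M t v b)
  | label (v : Fin N ⊕ Fin N) : CountAx G t (1 - ∑ a : Fin q, lab F M t v a)
  | zero (i : Fin (M + 1)) : CountAx G t (1 - cnt F N q i 0)
  | keep (i : Fin M) (j : Fin (t + 2)) :
      CountAx G t (cnt F N q i.castSucc j * (1 - cnt F N q i.succ j))
  | step (i : Fin M) (j : Fin (t + 1)) :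
      CountAx G t (cnt F N q i.castSucc j.castSucc * vioPoly F M t (G i) *
        (1 - cnt F N q i.succ j.succ))
  | last : CountAx G t (cnt F N q (Fin.last M) (Fin.last (t + 1)))

end defs

section ug

variable {F : Type} [Field F] {N q m k t : ℕ}

/-- Number of violated constraints in the block of `i` before `i`. -/
def cv {M : ℕ} (G : Fin M → Con N q) (k i : ℕ) (y : Fin N ⊕ Fin N → Fin q) : ℕ :=
  (univ.filter (fun l : Fin M => k * (i / k) ≤ (l : ℕ) ∧ (l : ℕ) < i ∧ Vio (G l) y)).card

/-- The vector of a labeling. -/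
def ohU {M : ℕ} (G : Fin M → Con N q) (k t : ℕ) (y : Fin N ⊕ Fin N → Fin q) :
    Lit N q M t → Bool := fun x =>
  (match x.1 with
    | Sum.inl (v, a) => decide (y v = a)
    | Sum.inr (i, j) => decide ((j : ℕ) ≤ 2 * ((i : ℕ) / k) + cv G k i y)) == x.2

/-- The vertices on which a coordinate depends. -/
def depU {M : ℕ} (G : Fin M → Con N q) (k t : ℕ) (x : Lit N q M t) : Finset (Fin N ⊕ Fin N) :=
  match x.1 with
    | Sum.inl (v, _) => {v}
    | Sum.inr (i, _) =>
      (univ.filter (fun l : Fin M => k * ((i : ℕ) / k) ≤ (l : ℕ) ∧ (l : ℕ) < i)).biUnion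
        (fun l => {Sum.inl (G l).1, Sum.inr (G l).2.1})

theorem vio_congr {c : Con N q} {y y' : Fin N ⊕ Fin N → Fin q}
    (h1 : y (Sum.inl c.1) = y' (Sum.inl c.1)) (h2 : y (Sum.inr c.2.1) = y' (Sum.inr c.2.1)) :
    Vio c y ↔ Vio c y' := by
  unfold Vio; rw [h1, h2]

theorem dep_ohU {M : ℕ} (G : Fin M → Con N q) (k t : ℕ) : DepOn (ohU G k t) (depU G k t) := by
  rintro ⟨x | ⟨i, j⟩, c⟩ y y' h
  · obtain ⟨v, a⟩ := x
    have := h v (by simp [depU])
    simp only [ohU, this]
  · have : cv G k i y = cv G k i y' := by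
      unfold cv
      congr 1
      apply Finset.filter_congr
      intro l _
      constructor
      · rintro ⟨h1, h2, h3⟩
        refine ⟨h1, h2, (vio_congr ?_ ?_).1 h3⟩
        · apply h
          simp only [depU, mem_biUnion, mem_filter, mem_univ, true_and]
          exact ⟨l, ⟨h1, h2⟩, by simp⟩
        · apply h
          simp only [depU, mem_biUnion, mem_filter, mem_univ, true_and]
          exact ⟨l, ⟨h1, h2⟩, by simp⟩
      · rintro ⟨h1, h2, h3⟩
        refine ⟨h1, h2, (vio_congr ?_ ?_).2 h3⟩
        · apply h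
          simp only [depU, mem_biUnion, mem_filter, mem_univ, true_and]
          exact ⟨l, ⟨h1, h2⟩, by simp⟩
        · apply h
          simp only [depU, mem_biUnion, mem_filter, mem_univ, true_and]
          exact ⟨l, ⟨h1, h2⟩, by simp⟩
    simp only [ohU, this]

theorem card_window {M k i : ℕ} (hk : 0 < k) :
    (univ.filter (fun l : Fin M => k * (i / k) ≤ (l : ℕ) ∧ (l : ℕ) < i)).card ≤ i % k := by
  have h1 : (univ.filter (fun l : Fin M => k * (i / k) ≤ (l : ℕ) ∧ (l : ℕ) < i)).card ≤
      (Finset.Ico (k * (i / k)) i).card := by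
    apply Finset.card_le_card_of_injOn (fun l : Fin M => (l : ℕ))
    · intro l hl
      simp only [coe_filter, mem_univ, true_and, Set.mem_ofPred_eq] at hl
      simp only [coe_Ico, Set.mem_Ico]
      exact hl
    · intro l _ l' _ h
      exact Fin.ext h
  rw [Nat.card_Ico] at h1
  have h2 := Nat.div_add_mod i k
  omega

theorem cv_lt {M : ℕ} (G : Fin M → Con N q) {k i : ℕ} (hk : 0 < k)
    (y : Fin N ⊕ Fin N → Fin q) : cv G k i y < k := by
  refine lt_of_le_of_lt (le_trans (Finset.card_le_card ?_) (card_window (M := M) (i := i) hk))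
    (Nat.mod_lt _ hk)
  intro l hl
  rw [mem_filter] at hl ⊢
  exact ⟨hl.1, hl.2.1, hl.2.2.1⟩

theorem card_depU {M : ℕ} (G : Fin M → Con N q) {k t : ℕ} (hk : 0 < k) (x : Lit N q M t) :
    (depU G k t x).card ≤ 2 * k := by
  obtain ⟨x | ⟨i, j⟩, c⟩ := x
  · obtain ⟨v, a⟩ := x
    simp only [depU, card_singleton]
    omega
  · simp only [depU]
    refine (Finset.card_biUnion_le_card_mul _ _ 2 (fun l _ => Finset.card_le_two)).trans ?_
    have h1 := card_window (M := M) (k := k) (i := (i : ℕ)) hk
    have h2 := Nat.mod_lt (i : ℕ) hk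
    omega

/-- Position of a vertex in a block. -/
def posU {ι : Type} (G : ι → Con N q) (e : Fin m × Fin k → ι) (b : Fin m) (p : Fin k × Bool) :
    Fin N ⊕ Fin N :=
  if p.2 = true then Sum.inr (G (e (b, p.1))).2.1 else Sum.inl (G (e (b, p.1))).1

/-- At most two constraints of the block are violated. -/
def satU {ι : Type} (G : ι → Con N q) (e : Fin m × Fin k → ι) (b : Fin m)
    (y : Fin N ⊕ Fin N → Fin q) : Prop :=
  (univ.filter (fun i => Vio (G (e (b, i))) y)).card ≤ 2

theorem local_U {ι : Type} (G : ι → Con N q) (e : Fin m × Fin k → ι) :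
    Local (posU G e) (satU G e) := by
  intro b y y' h hs
  unfold satU at hs ⊢
  have : (univ.filter (fun i => Vio (G (e (b, i))) y')) =
      (univ.filter (fun i => Vio (G (e (b, i))) y)) := by
    apply Finset.filter_congr
    intro i _
    have h1 := h (i, false)
    have h2 := h (i, true)
    simp only [posU] at h1 h2
    simp only [Vio]
    simp only [Bool.false_eq_true, if_false] at h1
    simp only [if_true] at h2
    rw [h1, h2]
  rw [this]; exact hs

theorem flexible_U {ι : Type} (G : ι → Con N q) (e : Fin m × Fin k → ι) (a0 : Fin q) :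
    Flexible (posU G e) (satU G e) := by
  classical
  intro b Q hQ huniq
  let w : Fin N ⊕ Fin N → Fin q := fun v => match v with
    | Sum.inl _ => a0
    | Sum.inr v => if h : ∃ i, (i, true) ∈ Q ∧ (G (e (b, i))).2.1 = v then
        (G (e (b, h.choose))).2.2 a0 else a0
  refine ⟨w, ?_⟩
  intro y
  unfold satU
  have hcard : (Qᶜ).card ≤ 2 := by
    rw [Finset.card_compl]; omega
  refine le_trans ?_ hcard
  have hsub : (univ.filter (fun i => Vio (G (e (b, i))) (ov (Q.image (posU G e b)) w y))) ⊆
      Qᶜ.image Prod.fst := by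
    intro i hi
    rw [mem_filter] at hi
    have hi := hi.2
    rw [mem_image]
    by_contra hcon
    push Not at hcon
    have hf : (i, false) ∈ Q := by
      by_contra h
      exact hcon (i, false) (mem_compl.2 h) rfl
    have ht : (i, true) ∈ Q := by
      by_contra h
      exact hcon (i, true) (mem_compl.2 h) rfl
    apply hi
    have h1 : ov (Q.image (posU G e b)) w y (Sum.inl (G (e (b, i))).1) = a0 := by
      unfold ov
      rw [if_pos]
      exact mem_image.2 ⟨(i, false), hf, by simp [posU]⟩
    have hex : ∃ i', (i', true) ∈ Q ∧ (G (e (b, i'))).2.1 = (G (e (b, i))).2.1 := ⟨i, ht, rfl⟩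
    have h2 : ov (Q.image (posU G e b)) w y (Sum.inr (G (e (b, i))).2.1) =
        (G (e (b, hex.choose))).2.2 a0 := by
      unfold ov
      rw [if_pos (mem_image.2 ⟨(i, true), ht, by simp [posU]⟩)]
      simp only [w]
      rw [dif_pos hex]
    have h3 : hex.choose = i := by
      have := huniq (i, true) ht (hex.choose, true) (by
        simp only [posU, if_true]
        rw [hex.choose_spec.2])
      exact (Prod.mk.inj this).1
    rw [h1, h2, h3]
  exact (Finset.card_le_card hsub).trans Finset.card_image_le

/-- A function of the block which vanishes where the block is satisfied is reduced to zero. -/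
theorem Rd_blk {V A B P K : Type} [Fintype V] [DecidableEq V] [Fintype A] [DecidableEq A]
    [Fintype B] [DecidableEq B] [Fintype P] [DecidableEq P] [Field K] {o : A}
    {pos : B → P → V} {sat : B → (V → A) → Prop} {s : ℕ}
    (hloc : Local pos sat) (hflex : Flexible pos sat) (hE : Expd pos s)
    (hs : 4 * Fintype.card P ≤ s) (hP : 3 ≤ Fintype.card P) (b : B) {f : (V → A) → K}
    (hf : ∀ y y' : V → A, (∀ p, y (pos b p) = y' (pos b p)) → f y = f y')
    (hfb : ∀ y, sat b y → f y = 0) : Rd K o pos sat s f = 0 := by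
  apply Rd_block hloc hflex hE (by omega) (S := univ.image (pos b)) _ (b := b) _ hfb
  · have : (univ.filter (fun p => pos b p ∉ univ.image (pos b))) = ∅ := by
      rw [Finset.filter_eq_empty_iff]
      intro p _
      simp
    rw [this, card_empty]
    omega
  · have : (univ.image (pos b)).card ≤ Fintype.card P := by
      refine Finset.card_image_le.trans ?_
      rw [Finset.card_univ]
    omega
  · intro y y' h
    exact hf y y' (fun p => h _ (mem_image_of_mem _ (mem_univ p)))

theorem eval_lab (G : Fin (m * k) → Con N q) (y : Fin N ⊕ Fin N → Fin q) (v : Fin N ⊕ Fin N)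
    (a : Fin q) : MvPolynomial.eval (bv F (ohU G k t y)) (lab F (m * k) t v a) =
      if y v = a then 1 else 0 := by
  simp [lab, bv, ohU]

theorem eval_cnt (G : Fin (m * k) → Con N q) (y : Fin N ⊕ Fin N → Fin q) (i : Fin (m * k + 1))
    (j : Fin (t + 2)) : MvPolynomial.eval (bv F (ohU G k t y)) (cnt F N q i j) =
      if (j : ℕ) ≤ 2 * ((i : ℕ) / k) + cv G k i y then 1 else 0 := by
  simp [cnt, bv, ohU]

theorem eval_vioPoly (G : Fin (m * k) → Con N q) (y : Fin N ⊕ Fin N → Fin q) (c : Con N q) :
    MvPolynomial.eval (bv F (ohU G k t y)) (vioPoly F (m * k) t c) =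
      if Vio c y then 1 else 0 := by
  unfold vioPoly
  simp only [map_sub, map_one, map_sum, map_mul, eval_lab]
  rw [Finset.sum_eq_single (y (Sum.inl c.1))]
  · by_cases h : Vio c y
    · have h' : ¬ (y (Sum.inr c.2.1) = c.2.2 (y (Sum.inl c.1))) := fun h'' => h h''.symm
      simp [h, h']
    · have h' : y (Sum.inr c.2.1) = c.2.2 (y (Sum.inl c.1)) := by
        unfold Vio at h
        push Not at h
        exact h.symm
      simp [h, h']
  · intro a _ ha
    have : ¬ (y (Sum.inl c.1) = a) := fun h => ha h.symm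
    simp [this]
  · intro h; exact absurd (mem_univ _) h

/-- Inside a block the counter grows with the constraints; at its end it is reset. -/
theorem cv_succ (G : Fin (m * k) → Con N q) (hk : 0 < k) (i : Fin (m * k))
    (y : Fin N ⊕ Fin N → Fin q) (hi : ((i : ℕ) + 1) / k = (i : ℕ) / k) :
    cv G k (i + 1) y = cv G k i y + if Vio (G i) y then 1 else 0 := by
  unfold cv
  rw [hi]
  have hki : k * ((i : ℕ) / k) ≤ i := Nat.mul_div_le _ _
  by_cases h : Vio (G i) y
  · rw [if_pos h]
    have : (univ.filter (fun l : Fin (m * k) => k * ((i : ℕ) / k) ≤ (l : ℕ) ∧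
        (l : ℕ) < i + 1 ∧ Vio (G l) y)) =
        insert i (univ.filter (fun l : Fin (m * k) => k * ((i : ℕ) / k) ≤ (l : ℕ) ∧
        (l : ℕ) < i ∧ Vio (G l) y)) := by
      ext l
      simp only [mem_filter, mem_univ, true_and, mem_insert]
      constructor
      · rintro ⟨h1, h2, h3⟩
        by_cases hl : l = i
        · exact Or.inl hl
        · right
          have : (l : ℕ) ≠ i := fun h' => hl (Fin.ext h')
          exact ⟨h1, by omega, h3⟩
      · rintro (rfl | ⟨h1, h2, h3⟩)
        · exact ⟨hki, by omega, h⟩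
        · exact ⟨h1, by omega, h3⟩
    rw [this, card_insert_of_notMem]
    simp
  · rw [if_neg h, add_zero]
    congr 1
    apply Finset.filter_congr
    intro l _
    constructor
    · rintro ⟨h1, h2, h3⟩
      have : (l : ℕ) ≠ i := by
        intro h'
        have : l = i := Fin.ext h'
        rw [this] at h3
        exact h h3
      exact ⟨h1, by omega, h3⟩
    · rintro ⟨h1, h2, h3⟩
      exact ⟨h1, by omega, h3⟩

theorem div_succ_cases {k i : ℕ} (hk : 0 < k) :
    (i + 1) / k = i / k ∨ ((i + 1) / k = i / k + 1 ∧ k * ((i + 1) / k) = i + 1) := by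
  rw [Nat.succ_div]
  split_ifs with h
  · right
    refine ⟨rfl, ?_⟩
    have := Nat.mul_div_cancel' h
    rw [Nat.succ_div_of_dvd h] at this
    exact this
  · left; rfl

theorem cv_end (G : Fin (m * k) → Con N q) (i : ℕ) (y : Fin N ⊕ Fin N → Fin q)
    (hi : k * ((i + 1) / k) = i + 1) : cv G k (i + 1) y = 0 := by
  unfold cv
  rw [Finset.card_eq_zero, Finset.filter_eq_empty_iff]
  rintro l _ ⟨h1, h2, _⟩
  omega

/-- The constraints up to the end of the block: their number of violations is at most two where the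
block is satisfied. -/
theorem cv_sat (G : Fin (m * k) → Con N q) (hk : 0 < k) (i : Fin (m * k)) (b : Fin m)
    (hb : (i : ℕ) / k = b) (y : Fin N ⊕ Fin N → Fin q)
    (hs : satU G (finProdFinEquiv : Fin m × Fin k ≃ Fin (m * k)) b y) :
    cv G k i y + (if Vio (G i) y then 1 else 0) ≤ 2 := by
  unfold satU at hs
  refine le_trans ?_ hs
  have h1 : cv G k i y + (if Vio (G i) y then 1 else 0) =
      (univ.filter (fun l : Fin (m * k) => k * ((i : ℕ) / k) ≤ (l : ℕ) ∧
        (l : ℕ) < i + 1 ∧ Vio (G l) y)).card := by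
    have hki : k * ((i : ℕ) / k) ≤ i := Nat.mul_div_le _ _
    unfold cv
    by_cases h : Vio (G i) y
    · rw [if_pos h]
      have : (univ.filter (fun l : Fin (m * k) => k * ((i : ℕ) / k) ≤ (l : ℕ) ∧
          (l : ℕ) < i + 1 ∧ Vio (G l) y)) =
          insert i (univ.filter (fun l : Fin (m * k) => k * ((i : ℕ) / k) ≤ (l : ℕ) ∧
          (l : ℕ) < i ∧ Vio (G l) y)) := by
        ext l
        simp only [mem_filter, mem_univ, true_and, mem_insert]
        constructor
        · rintro ⟨h1, h2, h3⟩
          by_cases hl : l = i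
          · exact Or.inl hl
          · right
            have : (l : ℕ) ≠ i := fun h' => hl (Fin.ext h')
            exact ⟨h1, by omega, h3⟩
        · rintro (rfl | ⟨h1, h2, h3⟩)
          · exact ⟨hki, by omega, h⟩
          · exact ⟨h1, by omega, h3⟩
      rw [this, card_insert_of_notMem]
      simp
    · rw [if_neg h, add_zero]
      congr 1
      apply Finset.filter_congr
      intro l _
      constructor
      · rintro ⟨h1, h2, h3⟩
        exact ⟨h1, by omega, h3⟩
      · rintro ⟨h1, h2, h3⟩
        have : (l : ℕ) ≠ i := by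
          intro h'
          have : l = i := Fin.ext h'
          rw [this] at h3
          exact h h3
        exact ⟨h1, by omega, h3⟩
  rw [h1]
  apply Finset.card_le_card_of_injOn (fun l : Fin (m * k) => (⟨(l : ℕ) % k, Nat.mod_lt _ hk⟩ : Fin k))
  · intro l hl
    simp only [coe_filter, mem_univ, true_and, Set.mem_ofPred_eq] at hl ⊢
    obtain ⟨h2, h3, h4⟩ := hl
    have h5 : (l : ℕ) / k = b := by
      rw [← hb]
      apply le_antisymm
      · exact Nat.div_le_div_right (by omega)
      · rw [Nat.le_div_iff_mul_le hk, mul_comm]; exact h2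
    have h6 : (finProdFinEquiv : Fin m × Fin k ≃ Fin (m * k)) (b, ⟨(l : ℕ) % k, Nat.mod_lt _ hk⟩) =
        l := by
      apply Fin.ext
      simp only [finProdFinEquiv_apply_val]
      rw [← h5]
      exact Nat.mod_add_div _ _
    rw [h6]
    exact h4
  · intro l hl l' hl' h
    simp only [coe_filter, mem_univ, true_and, Set.mem_ofPred_eq] at hl hl'
    have h5 : ∀ x : Fin (m * k), k * ((i : ℕ) / k) ≤ (x : ℕ) → (x : ℕ) < i + 1 →
        (x : ℕ) / k = b := by
      intro x hx1 hx2
      rw [← hb]
      apply le_antisymm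
      · exact Nat.div_le_div_right (by omega)
      · rw [Nat.le_div_iff_mul_le hk, mul_comm]; exact hx1
    have h6 := h5 l hl.1 hl.2.1
    have h7 := h5 l' hl'.1 hl'.2.1
    have h8 : (l : ℕ) % k = (l' : ℕ) % k := by
      have := congrArg Fin.val h
      exact this
    apply Fin.ext
    rw [← Nat.mod_add_div (l : ℕ) k, ← Nat.mod_add_div (l' : ℕ) k, h6, h7, h8]

/-- Both counters around `i` depend only on the block of `i`. -/
theorem cv_dep (G : Fin (m * k) → Con N q) (hk : 0 < k) (i : Fin (m * k)) (b : Fin m)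
    (hb : (i : ℕ) / k = b) (y y' : Fin N ⊕ Fin N → Fin q)
    (h : ∀ p, y (posU G (finProdFinEquiv : Fin m × Fin k ≃ Fin (m * k)) b p) =
      y' (posU G (finProdFinEquiv : Fin m × Fin k ≃ Fin (m * k)) b p)) :
    cv G k i y = cv G k i y' ∧ cv G k (i + 1) y = cv G k (i + 1) y' ∧
      (Vio (G i) y ↔ Vio (G i) y') := by
  have key : ∀ l : Fin (m * k), (l : ℕ) / k = b → (Vio (G l) y ↔ Vio (G l) y') := by
    intro l hl
    have h6 : (finProdFinEquiv : Fin m × Fin k ≃ Fin (m * k)) (b, ⟨(l : ℕ) % k, Nat.mod_lt _ hk⟩) =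
        l := by
      apply Fin.ext
      simp only [finProdFinEquiv_apply_val]
      rw [← hl]
      exact Nat.mod_add_div _ _
    have h1 := h (⟨(l : ℕ) % k, Nat.mod_lt _ hk⟩, false)
    have h2 := h (⟨(l : ℕ) % k, Nat.mod_lt _ hk⟩, true)
    simp only [posU, Bool.false_eq_true, if_false, if_true, h6] at h1 h2
    exact vio_congr h1 h2
  refine ⟨?_, ?_, key i hb⟩
  · unfold cv
    congr 1
    apply Finset.filter_congr
    intro l _
    have : k * ((i : ℕ) / k) ≤ (l : ℕ) → (l : ℕ) < i → (Vio (G l) y ↔ Vio (G l) y') := by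
      intro h1 h2
      apply key
      rw [← hb]
      apply le_antisymm
      · exact Nat.div_le_div_right (by omega)
      · rw [Nat.le_div_iff_mul_le hk, mul_comm]; exact h1
    constructor
    · rintro ⟨h1, h2, h3⟩; exact ⟨h1, h2, (this h1 h2).1 h3⟩
    · rintro ⟨h1, h2, h3⟩; exact ⟨h1, h2, (this h1 h2).2 h3⟩
  · unfold cv
    congr 1
    apply Finset.filter_congr
    intro l _
    have : k * (((i : ℕ) + 1) / k) ≤ (l : ℕ) → (l : ℕ) < i + 1 →
        (Vio (G l) y ↔ Vio (G l) y') := by
      intro h1 h2
      apply key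
      rw [← hb]
      apply le_antisymm
      · exact Nat.div_le_div_right (by omega)
      · rw [Nat.le_div_iff_mul_le hk, mul_comm]
        refine le_trans (Nat.mul_le_mul_left _ ?_) h1
        exact Nat.div_le_div_right (by omega)
    constructor
    · rintro ⟨h1, h2, h3⟩; exact ⟨h1, h2, (this h1 h2).1 h3⟩
    · rintro ⟨h1, h2, h3⟩; exact ⟨h1, h2, (this h1 h2).2 h3⟩

theorem Rd_countAx (o : Fin q) (G : Fin (m * k) → Con N q) {s : ℕ} (hk : 2 ≤ k)
    (ht : 2 * m ≤ t) (hs : 8 * k ≤ s)
    (hE : Expd (posU G (finProdFinEquiv : Fin m × Fin k ≃ Fin (m * k))) s)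
    {p : MvPolynomial (Lit N q (m * k) t) F} (hp : CountAx F G t p) :
    Rd F o (posU G (finProdFinEquiv : Fin m × Fin k ≃ Fin (m * k)))
      (satU G (finProdFinEquiv : Fin m × Fin k ≃ Fin (m * k))) s
      (pull F (ohU G k t) (toCube p)) = 0 := by
  have hk0 : 0 < k := by omega
  have hloc := local_U G (finProdFinEquiv : Fin m × Fin k ≃ Fin (m * k))
  have hflex := flexible_U G (finProdFinEquiv : Fin m × Fin k ≃ Fin (m * k)) o
  have hzero : ∀ p : MvPolynomial (Lit N q (m * k) t) F,
      (∀ y, MvPolynomial.eval (bv F (ohU G k t y)) p = 0) →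
      Rd F o (posU G (finProdFinEquiv : Fin m × Fin k ≃ Fin (m * k)))
      (satU G (finProdFinEquiv : Fin m × Fin k ≃ Fin (m * k))) s
      (pull F (ohU G k t) (toCube p)) = 0 := by
    intro p hp
    have : pull F (ohU G k t) (toCube p) = 0 := by
      funext y
      exact hp y
    rw [this, map_zero]
  have hP : Fintype.card (Fin k × Bool) = k * 2 := by simp
  cases hp with
  | bool x =>
    apply hzero
    intro y
    simp only [map_sub, map_pow, MvPolynomial.eval_X, bv]
    split_ifs <;> simp
  | neg w =>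
    apply hzero
    intro y
    simp only [map_sub, map_add, map_one, MvPolynomial.eval_X, bv, ohU]
    rcases w with ⟨v, a⟩ | ⟨i, j⟩
    · by_cases h : y v = a <;> simp [h]
    · by_cases h : (j : ℕ) ≤ 2 * ((i : ℕ) / k) + cv G k i y <;> simp [h]
  | uniq v a b hab =>
    apply hzero
    intro y
    rw [map_mul, eval_lab, eval_lab]
    by_cases h : y v = a
    · have h' : ¬ (y v = b) := fun h' => hab (h.symm.trans h')
      simp [h']
    · simp [h]
  | label v =>
    apply hzero
    intro y
    simp only [map_sub, map_one, map_sum, eval_lab]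
    simp
  | zero i =>
    apply hzero
    intro y
    rw [map_sub, map_one, eval_cnt, if_pos (by simp), sub_self]
  | keep i j =>
    have him : (i : ℕ) / k < m := by
      rw [Nat.div_lt_iff_lt_mul hk0]; exact i.2
    apply Rd_blk hloc hflex hE (by rw [hP]; omega) (by rw [hP]; omega) ⟨(i : ℕ) / k, him⟩
    · intro y y' h
      obtain ⟨h1, h2, h3⟩ := cv_dep G hk0 i ⟨(i : ℕ) / k, him⟩ rfl y y' h
      simp only [pull_apply, toCube, map_mul, map_sub, map_one, eval_cnt, Fin.val_castSucc,
        Fin.val_succ, h1, h2]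
    · intro y hy
      have hsat := cv_sat G hk0 i ⟨(i : ℕ) / k, him⟩ rfl y hy
      simp only [pull_apply, toCube, map_mul, map_sub, map_one, eval_cnt, Fin.val_castSucc,
        Fin.val_succ]
      by_cases h : (j : ℕ) ≤ 2 * ((i : ℕ) / k) + cv G k i y
      · have h' : (j : ℕ) ≤ 2 * (((i : ℕ) + 1) / k) + cv G k (i + 1) y := by
          rcases div_succ_cases (i := (i : ℕ)) hk0 with h1 | ⟨h1, h2⟩
          · rw [cv_succ G hk0 i y h1, h1]; omega
          · rw [cv_end G i y h2, h1]; omega
        rw [if_pos h', sub_self, mul_zero]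
      · rw [if_neg h, zero_mul]
  | step i j =>
    have him : (i : ℕ) / k < m := by
      rw [Nat.div_lt_iff_lt_mul hk0]; exact i.2
    apply Rd_blk hloc hflex hE (by rw [hP]; omega) (by rw [hP]; omega) ⟨(i : ℕ) / k, him⟩
    · intro y y' h
      obtain ⟨h1, h2, h3⟩ := cv_dep G hk0 i ⟨(i : ℕ) / k, him⟩ rfl y y' h
      simp only [pull_apply, toCube, map_mul, map_sub, map_one, eval_cnt, eval_vioPoly,
        Fin.val_castSucc, Fin.val_succ, h1, h2, h3]
    · intro y hy
      have hsat := cv_sat G hk0 i ⟨(i : ℕ) / k, him⟩ rfl y hy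
      simp only [pull_apply, toCube, map_mul, map_sub, map_one, eval_cnt, eval_vioPoly,
        Fin.val_castSucc, Fin.val_succ]
      by_cases h : (j : ℕ) ≤ 2 * ((i : ℕ) / k) + cv G k i y
      · by_cases hv : Vio (G i) y
        · have h' : (j : ℕ) + 1 ≤ 2 * (((i : ℕ) + 1) / k) + cv G k (i + 1) y := by
            rw [if_pos hv] at hsat
            rcases div_succ_cases (i := (i : ℕ)) hk0 with h1 | ⟨h1, h2⟩
            · rw [cv_succ G hk0 i y h1, h1, if_pos hv]; omega
            · rw [cv_end G i y h2, h1]; omega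
          rw [if_pos h', sub_self, mul_zero]
        · rw [if_neg hv, mul_zero, zero_mul]
      · rw [if_neg h, zero_mul, zero_mul]
  | last =>
    apply hzero
    intro y
    rw [eval_cnt, if_neg]
    intro h
    have h1 : cv G k (m * k) y = 0 := by
      unfold cv
      rw [Finset.card_eq_zero, Finset.filter_eq_empty_iff]
      rintro l _ ⟨h1, h2, _⟩
      rw [Nat.mul_div_cancel _ hk0] at h1
      have h3 : k * m = m * k := Nat.mul_comm _ _
      omega
    simp only [Fin.val_last] at h
    rw [h1, Nat.mul_div_cancel _ hk0] at h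
    omega

end ug

end Pool.Agent.W939.PC
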