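import Mathlib
import Pool.Agent.W939.PC.UG

/-!
The counter axioms are satisfiable if and only if some labeling violates at most `t` constraints.
-/

set_option linter.unusedSectionVars false
set_option linter.unusedSimpArgs false
set_option linter.unusedVariables false

namespace Pool.Agent.W939.PC

open Finset

variable {F : Type} [Field F] {N q M t : ℕ}

/-- Number of violated constraints among the first `i`. -/
def cf (G : Fin M → Con N q) (i : ℕ) (y : Fin N ⊕ Fin N → Fin q) : ℕ :=
  (univ.filter (fun l : Fin M => (l : ℕ) < i ∧ Vio (G l) y)).card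

theorem cf_zero (G : Fin M → Con N q) (y : Fin N ⊕ Fin N → Fin q) : cf G 0 y = 0 := by
  simp [cf]

theorem cf_succ (G : Fin M → Con N q) (i : Fin M) (y : Fin N ⊕ Fin N → Fin q) :
    cf G (i + 1) y = cf G i y + if Vio (G i) y then 1 else 0 := by
  unfold cf
  by_cases h : Vio (G i) y
  · rw [if_pos h]
    have : (univ.filter (fun l : Fin M => (l : ℕ) < i + 1 ∧ Vio (G l) y)) =
        insert i (univ.filter (fun l : Fin M => (l : ℕ) < i ∧ Vio (G l) y)) := by
      ext l
      simp only [mem_filter, mem_univ, true_and, mem_insert]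
      constructor
      · rintro ⟨h2, h3⟩
        by_cases hl : l = i
        · exact Or.inl hl
        · right
          have : (l : ℕ) ≠ i := fun h' => hl (Fin.ext h')
          exact ⟨by omega, h3⟩
      · rintro (rfl | ⟨h2, h3⟩)
        · exact ⟨by omega, h⟩
        · exact ⟨by omega, h3⟩
    rw [this, card_insert_of_notMem]
    simp
  · rw [if_neg h, add_zero]
    congr 1
    apply Finset.filter_congr
    intro l _
    constructor
    · rintro ⟨h2, h3⟩
      have : (l : ℕ) ≠ i := by
        intro h'
        have : l = i := Fin.ext h'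
        rw [this] at h3
        exact h h3
      exact ⟨by omega, h3⟩
    · rintro ⟨h2, h3⟩
      exact ⟨by omega, h3⟩

theorem cf_last (G : Fin M → Con N q) (y : Fin N ⊕ Fin N → Fin q) :
    cf G M y = (univ.filter (fun i => Vio (G i) y)).card := by
  unfold cf
  congr 1
  apply Finset.filter_congr
  intro l _
  exact ⟨fun h => h.2, fun h => ⟨l.2, h⟩⟩

theorem eval_vio_of (x : Lit N q M t → F) (y : Fin N ⊕ Fin N → Fin q)
    (hy : ∀ v a, x (Sum.inl (v, a), true) = if y v = a then 1 else 0) (c : Con N q) :
    MvPolynomial.eval x (vioPoly F M t c) = if Vio c y then 1 else 0 := by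
  unfold vioPoly lab
  simp only [map_sub, map_one, map_sum, map_mul, MvPolynomial.eval_X, hy]
  rw [Finset.sum_eq_single (y (Sum.inl c.1))]
  · by_cases h : Vio c y
    · have h' : ¬ (y (Sum.inr c.2.1) = c.2.2 (y (Sum.inl c.1))) := fun h'' => h h''.symm
      simp [h, h']
    · have h' : y (Sum.inr c.2.1) = c.2.2 (y (Sum.inl c.1)) := by
        unfold Vio at h
        push Not at h
        exact h.symm
      simp [h, h']
  · intro a _ ha
    have : ¬ (y (Sum.inl c.1) = a) := fun h => ha h.symm
    simp [this]
  · intro h; exact absurd (mem_univ _) h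

theorem countAx_sat (G : Fin M → Con N q) :
    (∃ x : Lit N q M t → F, ∀ p, CountAx F G t p → MvPolynomial.eval x p = 0) ↔
      ∃ y : Fin N ⊕ Fin N → Fin q, (univ.filter (fun i => Vio (G i) y)).card ≤ t := by
  constructor
  · rintro ⟨x, hx⟩
    have hbool : ∀ z, x z = 0 ∨ x z = 1 := by
      intro z
      have h := hx _ (CountAx.bool z)
      simp only [map_sub, map_pow, MvPolynomial.eval_X] at h
      have h2 : x z * (x z - 1) = 0 := by ring_nf; ring_nf at h; exact h
      rcases mul_eq_zero.1 h2 with h3 | h3
      · exact Or.inl h3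
      · exact Or.inr (sub_eq_zero.1 h3)
    have hex : ∀ v, ∃ a, x (Sum.inl (v, a), true) = 1 := by
      intro v
      by_contra hcon
      push Not at hcon
      have h := hx _ (CountAx.label v)
      simp only [lab, map_sub, map_one, map_sum, MvPolynomial.eval_X] at h
      have h0 : ∑ a : Fin q, x (Sum.inl (v, a), true) = 0 :=
        Finset.sum_eq_zero fun a _ => (hbool _).resolve_right (hcon a)
      rw [h0, sub_zero] at h
      exact one_ne_zero h
    choose y hy1 using hex
    have hy : ∀ v a, x (Sum.inl (v, a), true) = if y v = a then 1 else 0 := by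
      intro v a
      by_cases h : y v = a
      · rw [if_pos h, ← h]; exact hy1 v
      · rw [if_neg h]
        have h2 := hx _ (CountAx.uniq v (y v) a h)
        simp only [lab, map_mul, MvPolynomial.eval_X, hy1 v, one_mul] at h2
        exact h2
    refine ⟨y, ?_⟩
    have key : ∀ i : ℕ, ∀ hi : i ≤ M, ∀ j : ℕ, ∀ hj : j < t + 2, j ≤ cf G i y →
        x (Sum.inr (⟨i, by omega⟩, ⟨j, hj⟩), true) = 1 := by
      intro i
      induction i with
      | zero =>
        intro hi j hj h
        rw [cf_zero] at h
        have hj0 : j = 0 := by omega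
        subst hj0
        have h2 := hx _ (CountAx.zero (⟨0, by omega⟩ : Fin (M + 1)))
        simp only [cnt, map_sub, map_one, MvPolynomial.eval_X] at h2
        exact (sub_eq_zero.1 h2).symm
      | succ i ih =>
        intro hi j hj h
        have hc := cf_succ G ⟨i, by omega⟩ y
        simp only at hc
        rw [hc] at h
        by_cases h1 : j ≤ cf G i y
        · have h2 := ih (by omega) j hj h1
          have h3 := hx _ (CountAx.keep (⟨i, by omega⟩ : Fin M) (⟨j, hj⟩ : Fin (t + 2)))
          simp only [cnt, map_mul, map_sub, map_one, MvPolynomial.eval_X] at h3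
          have e1 : (Fin.castSucc (⟨i, by omega⟩ : Fin M)) = (⟨i, by omega⟩ : Fin (M + 1)) := rfl
          have e2 : (Fin.succ (⟨i, by omega⟩ : Fin M)) = (⟨i + 1, by omega⟩ : Fin (M + 1)) := rfl
          rw [e1, e2, h2, one_mul] at h3
          exact (sub_eq_zero.1 h3).symm
        · have hv : Vio (G ⟨i, by omega⟩) y := by
            by_contra hv
            rw [if_neg hv] at h
            omega
          rw [if_pos hv] at h
          obtain ⟨j', rfl⟩ : ∃ j', j = j' + 1 := ⟨j - 1, by omega⟩
          have h2 := ih (by omega) j' (by omega) (by omega)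
          have h3 := hx _ (CountAx.step (⟨i, by omega⟩ : Fin M) (⟨j', by omega⟩ : Fin (t + 1)))
          rw [map_mul, map_mul, eval_vio_of x y hy, if_pos hv, mul_one] at h3
          simp only [cnt, map_sub, map_one, MvPolynomial.eval_X] at h3
          have e1 : (Fin.castSucc (⟨i, by omega⟩ : Fin M)) = (⟨i, by omega⟩ : Fin (M + 1)) := rfl
          have e2 : (Fin.succ (⟨i, by omega⟩ : Fin M)) = (⟨i + 1, by omega⟩ : Fin (M + 1)) := rfl
          have e3 : (Fin.castSucc (⟨j', by omega⟩ : Fin (t + 1))) =
            (⟨j', by omega⟩ : Fin (t + 2)) := rfl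
          have e4 : (Fin.succ (⟨j', by omega⟩ : Fin (t + 1))) =
            (⟨j' + 1, by omega⟩ : Fin (t + 2)) := rfl
          rw [e1, e2, e3, e4, h2, one_mul] at h3
          exact (sub_eq_zero.1 h3).symm
    by_contra hcon
    push Not at hcon
    rw [← cf_last] at hcon
    have h2 := key M le_rfl (t + 1) (by omega) (by omega)
    have h3 := hx _ CountAx.last
    simp only [cnt, MvPolynomial.eval_X] at h3
    have e1 : (Fin.last M) = (⟨M, by omega⟩ : Fin (M + 1)) := rfl
    have e2 : (Fin.last (t + 1)) = (⟨t + 1, by omega⟩ : Fin (t + 2)) := rfl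
    rw [e1, e2, h2] at h3
    exact one_ne_zero h3
  · rintro ⟨y, hy⟩
    let x : Lit N q M t → F := fun z =>
      if ((match z.1 with
        | Sum.inl (v, a) => decide (y v = a)
        | Sum.inr (i, j) => decide ((j : ℕ) ≤ cf G i y)) == z.2) = true then 1 else 0
    have hl : ∀ v a, x (Sum.inl (v, a), true) = if y v = a then 1 else 0 := by
      intro v a; simp [x]
    have hc : ∀ i j, x (Sum.inr (i, j), true) = if (j : ℕ) ≤ cf G i y then 1 else 0 := by
      intro i j; simp [x]
    refine ⟨x, ?_⟩
    intro p hp
    cases hp with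
    | bool z =>
      simp only [map_sub, map_pow, MvPolynomial.eval_X, x]
      split_ifs <;> simp
    | neg w =>
      simp only [map_sub, map_add, map_one, MvPolynomial.eval_X, x]
      rcases w with ⟨v, a⟩ | ⟨i, j⟩
      · by_cases h : y v = a <;> simp [h]
      · by_cases h : (j : ℕ) ≤ cf G i y <;> simp [h]
    | uniq v a b hab =>
      simp only [lab, map_mul, MvPolynomial.eval_X, hl]
      by_cases h : y v = a
      · have h' : ¬ (y v = b) := fun h' => hab (h.symm.trans h')
        simp [h']
      · simp [h]
    | label v =>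
      simp only [lab, map_sub, map_one, map_sum, MvPolynomial.eval_X, hl]
      simp
    | zero i =>
      simp only [cnt, map_sub, map_one, MvPolynomial.eval_X, hc]
      simp
    | keep i j =>
      simp only [cnt, map_mul, map_sub, map_one, MvPolynomial.eval_X, hc, Fin.val_castSucc,
        Fin.val_succ]
      by_cases h : (j : ℕ) ≤ cf G i y
      · have h' : (j : ℕ) ≤ cf G (i + 1) y := by rw [cf_succ]; omega
        rw [if_pos h', sub_self, mul_zero]
      · rw [if_neg h, zero_mul]
    | step i j =>
      rw [map_mul, map_mul, eval_vio_of x y hl]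
      simp only [cnt, map_sub, map_one, MvPolynomial.eval_X, hc, Fin.val_castSucc, Fin.val_succ]
      by_cases h : (j : ℕ) ≤ cf G i y
      · by_cases hv : Vio (G i) y
        · have h' : (j : ℕ) + 1 ≤ cf G (i + 1) y := by rw [cf_succ, if_pos hv]; omega
          rw [if_pos h', sub_self, mul_zero]
        · rw [if_neg hv, mul_zero, zero_mul]
      · rw [if_neg h, zero_mul, zero_mul]
    | last =>
      simp only [cnt, MvPolynomial.eval_X, hc, Fin.val_last]
      apply if_neg
      rw [cf_last]
      omega

end Pool.Agent.W939.PC
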