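import Mathlib
import Pool.Agent.W939.PC.Closure

/-!
Existence of expanding families of blocks.
-/

set_option linter.unusedSectionVars false
set_option linter.unusedSimpArgs false

namespace Pool.Agent.W939.PC

open Finset

theorem pow_self_le (a : ℕ) : (a : ℝ) ^ a / (a.factorial : ℝ) ≤ Real.exp 1 ^ a := by
  have h := Real.pow_div_factorial_le_exp (a : ℝ) (Nat.cast_nonneg _) a
  refine h.trans ?_
  rw [← Real.exp_nat_mul, mul_one]

theorem term_a {N r t a : ℕ} {γ : ℝ} (hN : 0 < N) (hγ0 : 0 < γ) (hγ1 : γ ≤ 1)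
    (hx : ((r * t : ℕ) : ℝ) / N ≤ γ ^ 4) (ha : 4 * a + 5 * t < 4 * (r * t)) :
    (N.choose a : ℝ) * ((a : ℝ) / N) ^ (r * t) ≤
      Real.exp 1 ^ (r * t) * (((r * t : ℕ) : ℝ) / N) ^ t * γ ^ t := by
  have hN' : (0 : ℝ) < N := by exact_mod_cast hN
  obtain ⟨j, hj⟩ : ∃ j, r * t = a + (t + j) := ⟨r * t - a - t, by omega⟩
  have hj4 : t ≤ 4 * j := by omega
  set x : ℝ := ((r * t : ℕ) : ℝ) / N with hxdef
  have hx0 : 0 ≤ x := by positivity
  have hax : (a : ℝ) / N ≤ x := by
    rw [hxdef]
    apply div_le_div_of_nonneg_right _ hN'.le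
    exact_mod_cast (by omega : a ≤ r * t)
  have ha0 : 0 ≤ (a : ℝ) / N := by positivity
  have h1 : (N.choose a : ℝ) * ((a : ℝ) / N) ^ a ≤ Real.exp 1 ^ a := by
    have h2 : (N.choose a : ℝ) ≤ (N : ℝ) ^ a / (a.factorial : ℝ) := Nat.choose_le_pow_div a N
    refine (mul_le_mul_of_nonneg_right h2 (pow_nonneg ha0 a)).trans ?_
    have h3 : (N : ℝ) ^ a / (a.factorial : ℝ) * ((a : ℝ) / N) ^ a =
        (a : ℝ) ^ a / (a.factorial : ℝ) := by
      rw [div_pow]
      field_simp
    rw [h3]
    exact pow_self_le a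
  have h4 : ((a : ℝ) / N) ^ (t + j) ≤ x ^ t * γ ^ t := by
    refine (pow_le_pow_left₀ ha0 hax _).trans ?_
    rw [pow_add]
    apply mul_le_mul_of_nonneg_left _ (pow_nonneg hx0 t)
    refine (pow_le_pow_left₀ hx0 hx j).trans ?_
    rw [← pow_mul]
    exact pow_le_pow_of_le_one hγ0.le hγ1 hj4
  have h5 : Real.exp 1 ^ a ≤ Real.exp 1 ^ (r * t) := by
    apply pow_le_pow_right₀
    · have := Real.add_one_le_exp (1 : ℝ); linarith
    · omega
  rw [hj, pow_add ((a : ℝ) / N), ← hj, ← mul_assoc, mul_assoc (Real.exp 1 ^ (r * t))]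
  apply mul_le_mul (h1.trans h5) h4 (pow_nonneg ha0 _) (by positivity)

theorem term_t {N r m t μ : ℕ} {γ : ℝ} (hN : 0 < N) (hm : m ≤ μ * N) (hγ0 : 0 < γ)
    (hγ : γ * (4 * (μ * r * (r + 1) * Real.exp 1 ^ (r + 1))) ≤ 1) :
    (m.choose t : ℝ) * ((r * t : ℕ) * (Real.exp 1 ^ (r * t) * (((r * t : ℕ) : ℝ) / N) ^ t * γ ^ t))
      ≤ (1 / 4 : ℝ) ^ t := by
  have hN' : (0 : ℝ) < N := by exact_mod_cast hN
  have h1 : (m.choose t : ℝ) * (t : ℝ) ^ t ≤ (m : ℝ) ^ t * Real.exp 1 ^ t := by
    have h2 : (m.choose t : ℝ) ≤ (m : ℝ) ^ t / (t.factorial : ℝ) := Nat.choose_le_pow_div t m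
    refine (mul_le_mul_of_nonneg_right h2 (by positivity)).trans ?_
    rw [div_mul_eq_mul_div, mul_div_assoc]
    exact mul_le_mul_of_nonneg_left (pow_self_le t) (by positivity)
  have h3 : ((r * t : ℕ) : ℝ) ≤ ((r : ℝ) + 1) ^ t := by
    have := one_add_mul_le_pow (a := (r : ℝ)) (by have : (0 : ℝ) ≤ r := Nat.cast_nonneg r; linarith) t
    push_cast
    rw [add_comm (r : ℝ) 1]
    nlinarith
  have hmN : (m : ℝ) / N ≤ μ := by
    rw [div_le_iff₀ hN']; exact_mod_cast hm
  have e1 : (m.choose t : ℝ) * ((r * t : ℕ) * (Real.exp 1 ^ (r * t) *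
      (((r * t : ℕ) : ℝ) / N) ^ t * γ ^ t)) =
      ((m.choose t : ℝ) * (t : ℝ) ^ t) * ((r * t : ℕ) * (Real.exp 1 ^ (r * t) *
      ((r : ℝ) / N) ^ t * γ ^ t)) := by
    have : (((r * t : ℕ) : ℝ) / N) ^ t = ((r : ℝ) / N) ^ t * (t : ℝ) ^ t := by
      rw [← mul_pow]; congr 1; push_cast; ring
    rw [this]; ring
  rw [e1]
  calc ((m.choose t : ℝ) * (t : ℝ) ^ t) * ((r * t : ℕ) * (Real.exp 1 ^ (r * t) *
      ((r : ℝ) / N) ^ t * γ ^ t))
      ≤ ((m : ℝ) ^ t * Real.exp 1 ^ t) * (((r : ℝ) + 1) ^ t * (Real.exp 1 ^ (r * t) *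
      ((r : ℝ) / N) ^ t * γ ^ t)) := by
        apply mul_le_mul h1 _ (by positivity) (by positivity)
        exact mul_le_mul_of_nonneg_right h3 (by positivity)
    _ = (((m : ℝ) / N) * (r * (r + 1) * Real.exp 1 ^ (r + 1) * γ)) ^ t := by
        rw [pow_mul (Real.exp 1) r t]
        simp only [← mul_pow]
        congr 1
        field_simp
        ring
    _ ≤ ((μ : ℝ) * (r * (r + 1) * Real.exp 1 ^ (r + 1) * γ)) ^ t := by
        apply pow_le_pow_left₀ (by positivity)
        exact mul_le_mul_of_nonneg_right hmN (by positivity)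
    _ ≤ (1 / 4 : ℝ) ^ t := by
        apply pow_le_pow_left₀ (by positivity)
        nlinarith

theorem exists_expanding {P : Type} [Fintype P] [DecidableEq P] {N m s μ : ℕ} {γ : ℝ}
    (hN : 0 < N) (hm : m ≤ μ * N) (hγ0 : 0 < γ) (hγ1 : γ ≤ 1)
    (hγ : γ * (4 * (μ * (Fintype.card P : ℕ) * ((Fintype.card P : ℕ) + 1) *
      Real.exp 1 ^ (Fintype.card P + 1))) ≤ 1)
    (hs : ((Fintype.card P * s : ℕ) : ℝ) ≤ γ ^ 4 * N) :
    ∃ ω : Fin m → P → Fin N, Expd ω s := by
  classical
  by_contra hcon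
  push Not at hcon
  set r := Fintype.card P with hr
  have hN' : (0 : ℝ) < N := by exact_mod_cast hN
  let bad : Finset (Fin m) → Finset (Fin N) → Finset (Fin m → P → Fin N) := fun T Z =>
    Fintype.piFinset (fun b => if b ∈ T then Fintype.piFinset (fun _ => Z) else univ)
  have hcov : (univ : Finset (Fin m → P → Fin N)) ⊆
      ((univ : Finset (Fin m)).powerset.filter (fun T => 1 ≤ T.card ∧ T.card ≤ s)).biUnion
        (fun T => ((univ : Finset (Fin N)).powerset.filter
          (fun Z => 4 * Z.card + 5 * T.card < 4 * (r * T.card))).biUnion (fun Z => bad T Z)) := by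
    intro ω _
    have h1 := hcon ω
    unfold Expd at h1
    push Not at h1
    obtain ⟨T, hT, hT2⟩ := h1
    have hT1 : 1 ≤ T.card := by
      by_contra h
      have : T.card = 0 := by omega
      rw [this] at hT2
      omega
    rw [mem_biUnion]
    refine ⟨T, ?_, ?_⟩
    · rw [mem_filter, mem_powerset]
      exact ⟨subset_univ _, hT1, hT⟩
    · rw [mem_biUnion]
      refine ⟨vert ω T, ?_, ?_⟩
      · rw [mem_filter, mem_powerset]
        exact ⟨subset_univ _, hT2⟩
      · simp only [bad, Fintype.mem_piFinset]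
        intro b
        split_ifs with hb
        · rw [Fintype.mem_piFinset]
          intro p
          exact (mem_vert ω).2 ⟨b, hb, p, rfl⟩
        · exact mem_univ _
  have hbad : ∀ T Z, ((bad T Z).card : ℝ) =
      (Fintype.card (Fin m → P → Fin N) : ℝ) * ((Z.card : ℝ) / N) ^ (r * T.card) := by
    intro T Z
    have h1 : (bad T Z).card = ∏ b : Fin m, (if b ∈ T then Z.card ^ r else N ^ r) := by
      simp only [bad, Fintype.card_piFinset]
      apply Finset.prod_congr rfl
      intro b _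
      split_ifs
      · rw [Fintype.card_piFinset, Finset.prod_const, Finset.card_univ, hr]
      · rw [Finset.card_univ, Fintype.card_fun, Fintype.card_fin, hr]
    have h2 : Fintype.card (Fin m → P → Fin N) = ∏ _b : Fin m, N ^ r := by
      rw [Fintype.card_fun, Fintype.card_fun, Fintype.card_fin, Fintype.card_fin,
        Finset.prod_const, Finset.card_univ, Fintype.card_fin, hr]
    have h3 : ((Z.card : ℝ) / N) ^ (r * T.card) =
        ∏ b : Fin m, (if b ∈ T then (((Z.card : ℝ) / N) ^ r) else 1) := by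
      rw [Finset.prod_ite_mem, Finset.univ_inter, Finset.prod_const, pow_mul]
    rw [h1, h2, h3]
    push_cast
    rw [← Finset.prod_mul_distrib]
    apply Finset.prod_congr rfl
    intro b _
    split_ifs
    · rw [div_pow]; field_simp
    · rw [mul_one]
  set Ω : ℝ := (Fintype.card (Fin m → P → Fin N) : ℝ) with hΩ
  have hΩ0 : 0 < Ω := by
    rw [hΩ]
    have : Nonempty (Fin N) := ⟨⟨0, hN⟩⟩
    exact_mod_cast Fintype.card_pos
  have hle : Ω ≤ ∑ T ∈ (univ : Finset (Fin m)).powerset.filter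
      (fun T => 1 ≤ T.card ∧ T.card ≤ s),
      ∑ Z ∈ (univ : Finset (Fin N)).powerset.filter
        (fun Z => 4 * Z.card + 5 * T.card < 4 * (r * T.card)), ((bad T Z).card : ℝ) := by
    have h1 := Finset.card_le_card hcov
    have h2 := h1.trans Finset.card_biUnion_le
    have h3 : Fintype.card (Fin m → P → Fin N) ≤
        ∑ T ∈ (univ : Finset (Fin m)).powerset.filter (fun T => 1 ≤ T.card ∧ T.card ≤ s),
        ∑ Z ∈ (univ : Finset (Fin N)).powerset.filter
        (fun Z => 4 * Z.card + 5 * T.card < 4 * (r * T.card)), (bad T Z).card := by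
      rw [← Finset.card_univ]
      exact h2.trans (Finset.sum_le_sum fun T _ => Finset.card_biUnion_le)
    rw [hΩ]
    exact_mod_cast h3
  have hsum : ∑ T ∈ (univ : Finset (Fin m)).powerset.filter
      (fun T => 1 ≤ T.card ∧ T.card ≤ s),
      ∑ Z ∈ (univ : Finset (Fin N)).powerset.filter
        (fun Z => 4 * Z.card + 5 * T.card < 4 * (r * T.card)), ((bad T Z).card : ℝ) ≤
      Ω * ∑ t ∈ range (m + 1), (if 1 ≤ t then (1 / 4 : ℝ) ^ t else 0) := by
    have h1 : ∀ T ∈ (univ : Finset (Fin m)).powerset.filter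
        (fun T => 1 ≤ T.card ∧ T.card ≤ s),
        ∑ Z ∈ (univ : Finset (Fin N)).powerset.filter
          (fun Z => 4 * Z.card + 5 * T.card < 4 * (r * T.card)), ((bad T Z).card : ℝ) ≤
        Ω * ((r * T.card : ℕ) * (Real.exp 1 ^ (r * T.card) *
          (((r * T.card : ℕ) : ℝ) / N) ^ T.card * γ ^ T.card)) := by
      intro T hT
      rw [mem_filter] at hT
      obtain ⟨-, hT1, hTs⟩ := hT
      have hx : ((r * T.card : ℕ) : ℝ) / N ≤ γ ^ 4 := by
        rw [div_le_iff₀ hN']
        refine le_trans ?_ hs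
        exact_mod_cast Nat.mul_le_mul_left r hTs
      simp only [hbad]
      rw [← Finset.mul_sum]
      apply mul_le_mul_of_nonneg_left _ hΩ0.le
      rw [Finset.sum_filter]
      rw [Finset.sum_powerset_apply_card (fun a => if 4 * a + 5 * T.card < 4 * (r * T.card) then
        ((a : ℝ) / N) ^ (r * T.card) else 0)]
      rw [Finset.card_univ, Fintype.card_fin]
      have h2 : ∀ a ∈ range (N + 1), N.choose a • (if 4 * a + 5 * T.card < 4 * (r * T.card) then
          ((a : ℝ) / N) ^ (r * T.card) else 0) ≤ (if a < r * T.card then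
          (Real.exp 1 ^ (r * T.card) * (((r * T.card : ℕ) : ℝ) / N) ^ T.card * γ ^ T.card)
          else 0) := by
        intro a _
        rw [nsmul_eq_mul]
        by_cases ha : 4 * a + 5 * T.card < 4 * (r * T.card)
        · rw [if_pos ha, if_pos (by omega)]
          exact term_a hN hγ0 hγ1 hx ha
        · rw [if_neg ha, mul_zero]
          split_ifs
          · positivity
          · exact le_rfl
      refine (Finset.sum_le_sum h2).trans ?_
      rw [← Finset.sum_filter, Finset.sum_const, nsmul_eq_mul]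
      apply mul_le_mul_of_nonneg_right _ (by positivity)
      have : ((range (N + 1)).filter (fun a => a < r * T.card)).card ≤ r * T.card := by
        calc _ ≤ (range (r * T.card)).card := by
              apply Finset.card_le_card
              intro a ha
              rw [mem_filter] at ha
              exact mem_range.2 ha.2
          _ = _ := card_range _
      exact_mod_cast this
    refine (Finset.sum_le_sum h1).trans ?_
    rw [← Finset.mul_sum]
    apply mul_le_mul_of_nonneg_left _ hΩ0.le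
    rw [Finset.sum_filter]
    rw [Finset.sum_powerset_apply_card (fun t => if 1 ≤ t ∧ t ≤ s then ((r * t : ℕ) : ℝ) *
      (Real.exp 1 ^ (r * t) * (((r * t : ℕ) : ℝ) / N) ^ t * γ ^ t) else 0)]
    rw [Finset.card_univ, Fintype.card_fin]
    apply Finset.sum_le_sum
    intro t _
    rw [nsmul_eq_mul]
    by_cases ht : 1 ≤ t ∧ t ≤ s
    · rw [if_pos ht, if_pos ht.1]
      exact term_t hN hm hγ0 hγ
    · rw [if_neg ht, mul_zero]
      split_ifs
      · positivity
      · exact le_rfl
  have hgeo : ∑ t ∈ range (m + 1), (if 1 ≤ t then (1 / 4 : ℝ) ^ t else 0) < 1 := by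
    rw [Finset.sum_range_succ']
    simp only [Nat.le_add_left, if_true, nonpos_iff_eq_zero, one_ne_zero, if_false, add_zero]
    have h1 : ∀ n : ℕ, ∑ t ∈ range n, (1 / 4 : ℝ) ^ (t + 1) ≤ 1 / 3 - (1 / 3) * (1 / 4) ^ n := by
      intro n
      induction n with
      | zero => simp
      | succ n ih =>
        rw [Finset.sum_range_succ]
        have : (1 / 4 : ℝ) ^ (n + 1) = (1 / 4) * (1 / 4) ^ n := by ring
        rw [this]
        linarith
    have h2 := h1 m
    have h3 : (0 : ℝ) < (1 / 4) ^ m := by positivity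
    linarith
  have := hle.trans hsum
  nlinarith

end Pool.Agent.W939.PC
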