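import Mathlib
import Pool.Agent.W939.PC.UG

/-!
Random permutations make the value of a unique game small.
-/

set_option linter.unusedSectionVars false
set_option linter.unusedSimpArgs false

namespace Pool.Agent.W939.PC

open Finset

theorem card_perm_eq {q : ℕ} (a b : Fin q) :
    q * ((univ : Finset (Equiv.Perm (Fin q))).filter (fun π => π a = b)).card =
      Fintype.card (Equiv.Perm (Fin q)) := by
  have h1 : ∀ b' : Fin q, ((univ : Finset (Equiv.Perm (Fin q))).filter (fun π => π a = b')).card =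
      ((univ : Finset (Equiv.Perm (Fin q))).filter (fun π => π a = b)).card := by
    intro b'
    apply Finset.card_equiv (Equiv.mulLeft (Equiv.swap b' b))
    intro π
    simp only [mem_filter, mem_univ, true_and, Equiv.coe_mulLeft, Equiv.Perm.coe_mul,
      Function.comp_apply]
    constructor
    · intro h; rw [h, Equiv.swap_apply_left]
    · intro h
      have := congrArg (Equiv.swap b' b) h
      rw [Equiv.swap_apply_self, Equiv.swap_apply_right] at this
      exact this
  have h2 : Fintype.card (Equiv.Perm (Fin q)) = ∑ b' : Fin q,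
      ((univ : Finset (Equiv.Perm (Fin q))).filter (fun π => π a = b')).card := by
    rw [← Finset.card_univ]
    exact Finset.card_eq_sum_card_fiberwise (fun _ _ => mem_univ _)
  rw [h2, Finset.sum_congr rfl (fun b' _ => h1 b'), Finset.sum_const, Finset.card_univ,
    Fintype.card_fin, smul_eq_mul]

theorem sum_perm {q : ℕ} (hq : 0 < q) (a b : Fin q) (t : ℝ) :
    ∑ π : Equiv.Perm (Fin q), (if π a = b then t else 1) =
      (Fintype.card (Equiv.Perm (Fin q)) : ℝ) * (1 + (t - 1) / q) := by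
  have hq' : (0 : ℝ) < q := by exact_mod_cast hq
  have h1 : ∑ π : Equiv.Perm (Fin q), (if π a = b then t else 1) =
      ∑ π : Equiv.Perm (Fin q), (1 + (if π a = b then t - 1 else 0)) := by
    apply Finset.sum_congr rfl
    intro π _
    split_ifs <;> ring
  rw [h1, Finset.sum_add_distrib, Finset.sum_const, ← Finset.sum_filter, Finset.sum_const,
    Finset.card_univ, nsmul_eq_mul, nsmul_eq_mul, mul_one]
  have h2 := card_perm_eq a b
  have h3 : (q : ℝ) * (((univ : Finset (Equiv.Perm (Fin q))).filter (fun π => π a = b)).card : ℝ) =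
      (Fintype.card (Equiv.Perm (Fin q)) : ℝ) := by exact_mod_cast h2
  rw [← h3]
  field_simp

theorem exists_value {N q : ℕ} {ι : Type} [Fintype ι] [DecidableEq ι] (hq : 0 < q)
    (ends : ι → Fin N × Fin N) {t δ ρ : ℝ} (ht : 1 < t)
    (hρ : ρ = (1 + (t - 1) / q) / t ^ δ)
    (hlt : (q : ℝ) ^ (2 * N) * ρ ^ (Fintype.card ι) < 1) :
    ∃ σ : ι → Equiv.Perm (Fin q), ∀ y : Fin N ⊕ Fin N → Fin q,
      ((univ.filter (fun i => ¬ Vio ((ends i).1, (ends i).2, σ i) y)).card : ℝ) ≤
        δ * Fintype.card ι := by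
  classical
  by_contra hcon
  push Not at hcon
  set M := Fintype.card ι with hM
  set Q : ℝ := (Fintype.card (Equiv.Perm (Fin q)) : ℝ) with hQ
  have hQ0 : 0 < Q := by rw [hQ]; exact_mod_cast Fintype.card_pos
  have ht0 : 0 < t := by linarith
  have htd : 0 < t ^ δ := Real.rpow_pos_of_pos ht0 _
  -- number of satisfied constraints
  let c : (ι → Equiv.Perm (Fin q)) → (Fin N ⊕ Fin N → Fin q) → ℕ := fun σ y =>
    (univ.filter (fun i => ¬ Vio ((ends i).1, (ends i).2, σ i) y)).card
  have h1 : ∀ σ : ι → Equiv.Perm (Fin q), (1 : ℝ) ≤ ∑ y : Fin N ⊕ Fin N → Fin q,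
      t ^ (c σ y) / (t ^ δ) ^ M := by
    intro σ
    obtain ⟨y, hy⟩ := hcon σ
    have h2 : (1 : ℝ) ≤ t ^ (c σ y) / (t ^ δ) ^ M := by
      rw [le_div_iff₀ (pow_pos htd M), one_mul]
      rw [← Real.rpow_natCast (t ^ δ) M, ← Real.rpow_mul ht0.le, ← Real.rpow_natCast t]
      exact Real.rpow_le_rpow_of_exponent_le ht.le hy.le
    refine h2.trans ?_
    exact Finset.single_le_sum (f := fun y => t ^ (c σ y) / (t ^ δ) ^ M)
      (fun y _ => by positivity) (mem_univ y)
  have h2 : (Fintype.card (ι → Equiv.Perm (Fin q)) : ℝ) ≤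
      ∑ σ : ι → Equiv.Perm (Fin q), ∑ y : Fin N ⊕ Fin N → Fin q,
        t ^ (c σ y) / (t ^ δ) ^ M := by
    have := Finset.sum_le_sum (fun (σ : ι → Equiv.Perm (Fin q)) (_ : σ ∈ univ) => h1 σ)
    rw [Finset.sum_const, Finset.card_univ, nsmul_eq_mul, mul_one] at this
    exact this
  rw [Finset.sum_comm] at h2
  have h3 : ∀ y : Fin N ⊕ Fin N → Fin q, ∑ σ : ι → Equiv.Perm (Fin q),
      t ^ (c σ y) / (t ^ δ) ^ M = Q ^ M * ρ ^ M := by
    intro y
    have h4 : ∀ σ : ι → Equiv.Perm (Fin q), t ^ (c σ y) =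
        ∏ i, (if σ i (y (Sum.inl (ends i).1)) = y (Sum.inr (ends i).2) then t else 1) := by
      intro σ
      rw [← Finset.prod_filter, Finset.prod_const]
      have : c σ y = (univ.filter (fun i => σ i (y (Sum.inl (ends i).1)) =
          y (Sum.inr (ends i).2))).card := by
        simp only [c]
        congr 1
        apply Finset.filter_congr
        intro i _
        simp [Vio]
      rw [this]
    rw [← Finset.sum_div]
    have h5 : ∑ σ : ι → Equiv.Perm (Fin q), t ^ (c σ y) = (Q * (1 + (t - 1) / q)) ^ M := by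
      rw [Finset.sum_congr rfl (fun σ _ => h4 σ)]
      have h6 := Finset.prod_univ_sum (fun _ : ι => (univ : Finset (Equiv.Perm (Fin q))))
        (fun i π => (if π (y (Sum.inl (ends i).1)) = y (Sum.inr (ends i).2) then t else (1 : ℝ)))
      rw [Fintype.piFinset_univ] at h6
      rw [← h6]
      rw [Finset.prod_congr rfl (fun i _ => sum_perm hq _ _ t)]
      rw [Finset.prod_const, Finset.card_univ]
    rw [h5, hρ, mul_pow, div_pow]
    ring
  rw [Finset.sum_congr rfl (fun y _ => h3 y), Finset.sum_const, Finset.card_univ,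
    nsmul_eq_mul] at h2
  have h7 : (Fintype.card (ι → Equiv.Perm (Fin q)) : ℝ) = Q ^ M := by
    rw [Fintype.card_fun]; push_cast; rfl
  have h8 : (Fintype.card (Fin N ⊕ Fin N → Fin q) : ℝ) = (q : ℝ) ^ (2 * N) := by
    rw [Fintype.card_fun, Fintype.card_sum, Fintype.card_fin, Fintype.card_fin]
    push_cast
    congr 1
    ring
  rw [h7, h8] at h2
  have h9 : 0 < Q ^ M := pow_pos hQ0 M
  have h10 : (q : ℝ) ^ (2 * N) * (Q ^ M * ρ ^ M) = Q ^ M * ((q : ℝ) ^ (2 * N) * ρ ^ M) := by ring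
  rw [h10] at h2
  nlinarith

theorem exists_rho {q : ℕ} (hq : 0 < q) {δ : ℝ} (hδ : 1 / (q : ℝ) < δ) :
    ∃ t ρ : ℝ, 1 < t ∧ ρ = (1 + (t - 1) / q) / t ^ δ ∧ 0 < ρ ∧ ρ < 1 := by
  have hq' : (0 : ℝ) < q := by exact_mod_cast hq
  have hδq : 1 < δ * q := by
    rw [div_lt_iff₀ hq'] at hδ; exact hδ
  have hδ0 : 0 < δ := lt_trans (by positivity) hδ
  refine ⟨(1 + δ * q) / 2, _, by linarith, rfl, ?_, ?_⟩
  · have h1 : (0 : ℝ) < (1 + δ * q) / 2 := by linarith
    have h2 : (0 : ℝ) ≤ ((1 + δ * q) / 2 - 1) / q := by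
      apply div_nonneg _ hq'.le; linarith
    exact div_pos (by linarith) (Real.rpow_pos_of_pos h1 _)
  · set t : ℝ := (1 + δ * q) / 2 with ht
    have ht1 : 1 < t := by rw [ht]; linarith
    have ht2 : t < δ * q := by rw [ht]; linarith
    have ht0 : 0 < t := by linarith
    rw [div_lt_one (Real.rpow_pos_of_pos ht0 _)]
    have h1 : 1 + (t - 1) / q ≤ Real.exp ((t - 1) / q) := by
      have := Real.add_one_le_exp ((t - 1) / q); linarith
    have h2 : t ^ δ = Real.exp (Real.log t * δ) := by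
      rw [Real.rpow_def_of_pos ht0]
    have h3 : 1 - t⁻¹ ≤ Real.log t := Real.one_sub_inv_le_log_of_pos ht0
    rw [h2]
    refine lt_of_le_of_lt h1 (Real.exp_lt_exp.2 ?_)
    have h4 : (1 - t⁻¹) * δ ≤ Real.log t * δ := mul_le_mul_of_nonneg_right h3 hδ0.le
    refine lt_of_lt_of_le ?_ h4
    have h5 : (1 - t⁻¹) * δ = (t - 1) * (δ / t) := by field_simp
    have h6 : (t - 1) / q = (t - 1) * (1 / q) := by ring
    rw [h5, h6]
    apply mul_lt_mul_of_pos_left _ (by linarith)
    rw [div_lt_div_iff₀ hq' ht0]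
    linarith

end Pool.Agent.W939.PC
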