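import Mathlib
import Pool.Agent.W939.PC.UG
import Pool.Agent.W939.PC.Value
import Pool.Agent.W939.PC.Expand

/-!
Assembly of the lower bound for unique games.
-/

set_option linter.unusedSectionVars false
set_option linter.unusedSimpArgs false
set_option linter.unusedVariables false

namespace Pool.Agent.W939.PC

open Finset

theorem totalDegree_vioPoly {F : Type} [Field F] {N q M t : ℕ} (c : Con N q) :
    (vioPoly F M t c).totalDegree ≤ 2 := by
  unfold vioPoly
  refine (MvPolynomial.totalDegree_sub _ _).trans ?_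
  rw [max_le_iff]
  refine ⟨by simp, ?_⟩
  apply MvPolynomial.totalDegree_finsetSum_le
  intro a _
  refine (MvPolynomial.totalDegree_mul _ _).trans ?_
  unfold lab
  rw [MvPolynomial.totalDegree_X, MvPolynomial.totalDegree_X]

theorem countAx_degree {F : Type} [Field F] {N q M t : ℕ} {G : Fin M → Con N q}
    {p : MvPolynomial (Lit N q M t) F} (hp : CountAx F G t p) :
    p.totalDegree ≤ 4 := by
  have hone : ∀ x : Lit N q M t, (1 - MvPolynomial.X x : MvPolynomial (Lit N q M t) F).totalDegree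
      ≤ 1 := by
    intro x
    refine (MvPolynomial.totalDegree_sub _ _).trans ?_
    rw [max_le_iff, MvPolynomial.totalDegree_X]
    exact ⟨by simp, le_refl _⟩
  cases hp with
  | bool x =>
    refine (MvPolynomial.totalDegree_sub _ _).trans ?_
    rw [max_le_iff]
    constructor
    · refine (MvPolynomial.totalDegree_pow _ _).trans ?_
      rw [MvPolynomial.totalDegree_X]; omega
    · rw [MvPolynomial.totalDegree_X]; omega
  | neg w =>
    refine (MvPolynomial.totalDegree_sub _ _).trans ?_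
    rw [max_le_iff]
    constructor
    · refine (MvPolynomial.totalDegree_add _ _).trans ?_
      rw [MvPolynomial.totalDegree_X, MvPolynomial.totalDegree_X, max_self]; omega
    · simp
  | uniq v a b hab =>
    refine (MvPolynomial.totalDegree_mul _ _).trans ?_
    unfold lab
    rw [MvPolynomial.totalDegree_X, MvPolynomial.totalDegree_X]; omega
  | label v =>
    refine (MvPolynomial.totalDegree_sub _ _).trans ?_
    rw [max_le_iff]
    constructor
    · simp
    · apply MvPolynomial.totalDegree_finsetSum_le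
      intro a _
      unfold lab
      rw [MvPolynomial.totalDegree_X]; omega
  | zero i =>
    exact (hone _).trans (by omega)
  | keep i j =>
    refine (MvPolynomial.totalDegree_mul _ _).trans ?_
    have h1 : (cnt F N q i.castSucc j : MvPolynomial (Lit N q M t) F).totalDegree ≤ 1 := by
      unfold cnt; rw [MvPolynomial.totalDegree_X]
    have h2 := hone (Sum.inr (i.succ, j), true)
    have h3 : (1 - cnt F N q i.succ j : MvPolynomial (Lit N q M t) F).totalDegree ≤ 1 := h2
    omega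
  | step i j =>
    refine (MvPolynomial.totalDegree_mul _ _).trans ?_
    have h1 : (cnt F N q i.castSucc j.castSucc : MvPolynomial (Lit N q M t) F).totalDegree ≤ 1 := by
      unfold cnt; rw [MvPolynomial.totalDegree_X]
    have h3 : (1 - cnt F N q i.succ j.succ : MvPolynomial (Lit N q M t) F).totalDegree ≤ 1 :=
      hone (Sum.inr (i.succ, j.succ), true)
    have h4 := MvPolynomial.totalDegree_mul
      (cnt F N q i.castSucc j.castSucc : MvPolynomial (Lit N q M t) F) (vioPoly F M t (G i))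
    have h5 := totalDegree_vioPoly (F := F) (M := M) (t := t) (G i)
    omega
  | last =>
    unfold cnt
    rw [MvPolynomial.totalDegree_X]; omega

/-- The coordinates which are not constant. -/
def actU (N q M t k : ℕ) : Finset (Lit N q M t) :=
  univ.filter (fun x => ∀ i j, x.1 = Sum.inr (i, j) →
    2 * ((i : ℕ) / k) < (j : ℕ) ∧ (j : ℕ) < 2 * ((i : ℕ) / k) + k)

/-- The values of the constant coordinates. -/
def rhoU (N q M t k : ℕ) (x : Lit N q M t) : Bool :=
  match x.1 with
    | Sum.inl _ => false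
    | Sum.inr (i, j) => decide ((j : ℕ) ≤ 2 * ((i : ℕ) / k)) == x.2

theorem rho_ohU {N q M t k : ℕ} (hk : 0 < k) (G : Fin M → Con N q) :
    ∀ x ∉ actU N q M t k, ∀ y, ohU G k t y x = rhoU N q M t k x := by
  rintro ⟨w | ⟨i, j⟩, c⟩ hx y
  · exfalso
    apply hx
    simp [actU]
  · simp only [actU, mem_filter, mem_univ, true_and] at hx
    have hx' : ¬ (2 * ((i : ℕ) / k) < (j : ℕ) ∧ (j : ℕ) < 2 * ((i : ℕ) / k) + k) := by
      intro h
      apply hx
      intro i' j' h'
      simp only [Sum.inr.injEq, Prod.mk.injEq] at h'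
      obtain ⟨rfl, rfl⟩ := h'
      exact h
    have hcv := cv_lt G (i := (i : ℕ)) hk y
    simp only [ohU, rhoU]
    congr 1
    rw [decide_eq_decide]
    omega

theorem card_actU {N q M t k : ℕ} (hk : 0 < k) :
    (actU N q M t k).card ≤ 2 * (2 * N * q + (M + 1) * k) := by
  have h1 : (actU N q M t k).card ≤
      Fintype.card ((((Fin N ⊕ Fin N) × Fin q) ⊕ (Fin (M + 1) × Fin k)) × Bool) := by
    rw [← Finset.card_univ]
    apply Finset.card_le_card_of_injOn (fun x : Lit N q M t =>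
      ((match x.1 with
        | Sum.inl w => Sum.inl w
        | Sum.inr (i, j) => Sum.inr (i, ⟨((j : ℕ) - 2 * ((i : ℕ) / k)) % k, Nat.mod_lt _ hk⟩) :
        ((Fin N ⊕ Fin N) × Fin q) ⊕ (Fin (M + 1) × Fin k)), x.2))
    · intro x _
      simp
    · rintro ⟨w | ⟨i, j⟩, c⟩ hx ⟨w' | ⟨i', j'⟩, c'⟩ hx' h
      · simp only [Prod.mk.injEq, Sum.inl.injEq] at h
        obtain ⟨rfl, rfl⟩ := h
        rfl
      · simp at h
      · simp at h
      · simp only [Prod.mk.injEq, Sum.inr.injEq, Fin.mk.injEq] at h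
        obtain ⟨⟨rfl, h2⟩, rfl⟩ := h
        simp only [actU, coe_filter, mem_univ, true_and, Set.mem_ofPred_eq] at hx hx'
        have h3 := hx i j rfl
        have h4 := hx' i j' rfl
        have e1 : ((j : ℕ) - 2 * ((i : ℕ) / k)) % k = (j : ℕ) - 2 * ((i : ℕ) / k) :=
          Nat.mod_eq_of_lt (by omega)
        have e2 : ((j' : ℕ) - 2 * ((i : ℕ) / k)) % k = (j' : ℕ) - 2 * ((i : ℕ) / k) :=
          Nat.mod_eq_of_lt (by omega)
        rw [e1, e2] at h2
        have : j = j' := Fin.ext (by omega)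
        rw [this]
  refine h1.trans (le_of_eq ?_)
  simp only [Fintype.card_prod, Fintype.card_sum, Fintype.card_fin, Fintype.card_bool]
  ring

theorem expd_posU {N q m k s : ℕ} {ω : Fin m → Fin k × Bool → Fin N} (h : Expd ω s)
    {G : Fin (m * k) → Con N q}
    (hG : ∀ b i, (G (finProdFinEquiv (b, i))).1 = ω b (i, false) ∧
      (G (finProdFinEquiv (b, i))).2.1 = ω b (i, true)) :
    Expd (posU G (finProdFinEquiv : Fin m × Fin k ≃ Fin (m * k))) s := by
  intro T hT
  refine (h T hT).trans ?_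
  have h1 : vert ω T ⊆ (vert (posU G (finProdFinEquiv : Fin m × Fin k ≃ Fin (m * k))) T).image
      (Sum.elim id id) := by
    intro v hv
    obtain ⟨b, hb, p, hp⟩ := (mem_vert ω).1 hv
    rw [mem_image]
    refine ⟨posU G (finProdFinEquiv : Fin m × Fin k ≃ Fin (m * k)) b p, ?_, ?_⟩
    · exact (mem_vert _).2 ⟨b, hb, p, rfl⟩
    · rw [← hp]
      obtain ⟨i, c⟩ := p
      cases c
      · simp only [posU, Bool.false_eq_true, if_false, Sum.elim_inl, id]
        exact (hG b i).1
      · simp only [posU, if_true, Sum.elim_inr, id]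
        exact (hG b i).2
  have h2 := (Finset.card_le_card h1).trans Finset.card_image_le
  omega

/-- The combinatorial core with explicit parameters. -/
theorem core_bound {q k c N s e t n : ℕ} {δ τ ρ γ : ℝ} (hq : 2 ≤ q) (hτ : 1 < τ)
    (hρ : ρ = (1 + (τ - 1) / q) / τ ^ δ) (hρ0 : 0 < ρ) (hρ1 : ρ < 1)
    (hc : ρ ^ c < ((q : ℝ) ^ 2)⁻¹) (hk2 : 2 ≤ k) (ht : 2 * (c * N) ≤ t) (hN : 0 < N)
    (hγ0 : 0 < γ) (hγ1 : γ ≤ 1)
    (hγ : γ * (4 * (c * ((k * 2 : ℕ) : ℝ) * (((k * 2 : ℕ) : ℝ) + 1) *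
      Real.exp 1 ^ (k * 2 + 1))) ≤ 1)
    (hs : ((k * 2 * s : ℕ) : ℝ) ≤ γ ^ 4 * N)
    (he1 : 2 ≤ e) (hes : 4 * (4 * e * (2 * k) + 2 * k) ≤ s) (hen : 2 * e ≤ n)
    (hn : 2 * (2 * N * q + (c * N * k + 1) * k) ≤ n) :
    ∃ G : Fin (c * N * k) → Con N q,
      (∀ y : Fin N ⊕ Fin N → Fin q,
        ((univ.filter (fun i => ¬ Vio (G i) y)).card : ℝ) ≤ δ * ((c * N * k : ℕ) : ℝ)) ∧
      ∀ (F : Type) [Field F] (S : Finset (Lit N q (c * N * k) t →₀ ℕ)),
        Derives {p | CountAx F G t p} (S : Set (Lit N q (c * N * k) t →₀ ℕ)) 1 →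
          (∃ m ∈ S, 4 * e < m.degree) ∧ Real.exp (4 * (e : ℝ) ^ 2 / (n : ℝ)) ≤ S.card := by
  classical
  have hq0 : 0 < q := by omega
  have hk1 : 1 ≤ k := by omega
  have hP : Fintype.card (Fin k × Bool) = k * 2 := by simp
  obtain ⟨ω, hω⟩ := exists_expanding (P := Fin k × Bool) (N := N) (m := c * N) (s := s) (μ := c)
    (γ := γ) hN le_rfl hγ0 hγ1 (by rw [hP]; exact hγ) (by rw [hP]; exact hs)
  let eq : Fin (c * N) × Fin k ≃ Fin (c * N * k) := finProdFinEquiv
  let ends : Fin (c * N * k) → Fin N × Fin N := fun i =>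
    (ω (eq.symm i).1 ((eq.symm i).2, false), ω (eq.symm i).1 ((eq.symm i).2, true))
  have hlt : (q : ℝ) ^ (2 * N) * ρ ^ (Fintype.card (Fin (c * N * k))) < 1 := by
    rw [Fintype.card_fin]
    have h1 : (q : ℝ) ^ (2 * N) * ρ ^ (c * N * k) = ((q : ℝ) ^ 2 * ρ ^ (c * k)) ^ N := by
      rw [mul_pow, ← pow_mul, ← pow_mul]
      congr 2
      ring
    rw [h1]
    have h2 : ρ ^ (c * k) ≤ ρ ^ c :=
      pow_le_pow_of_le_one hρ0.le hρ1.le (Nat.le_mul_of_pos_right c hk1)
    have hqq : (0 : ℝ) < (q : ℝ) ^ 2 := by positivity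
    have h3 : (q : ℝ) ^ 2 * ρ ^ (c * k) < 1 := by
      calc (q : ℝ) ^ 2 * ρ ^ (c * k) ≤ (q : ℝ) ^ 2 * ρ ^ c := mul_le_mul_of_nonneg_left h2 hqq.le
        _ < (q : ℝ) ^ 2 * ((q : ℝ) ^ 2)⁻¹ := mul_lt_mul_of_pos_left hc hqq
        _ = 1 := mul_inv_cancel₀ hqq.ne'
    exact pow_lt_one₀ (by positivity) h3 (by omega)
  obtain ⟨σ, hσ⟩ := exists_value hq0 ends hτ hρ hlt
  let G : Fin (c * N * k) → Con N q := fun i => ((ends i).1, (ends i).2, σ i)
  refine ⟨G, ?_, ?_⟩
  · intro y
    have := hσ y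
    rw [Fintype.card_fin] at this
    exact this
  · intro F _ S hS
    have hG : ∀ b i, (G (finProdFinEquiv (b, i))).1 = ω b (i, false) ∧
        (G (finProdFinEquiv (b, i))).2.1 = ω b (i, true) := by
      intro b i
      simp [G, ends, eq]
    have hE := expd_posU hω hG
    exact lower (K := F) (⟨0, hq0⟩ : Fin q) (dep_ohU G k t)
      (fun x => card_depU G (by omega) x) (local_U G eq) (flexible_U G eq ⟨0, hq0⟩)
      hE (actU N q (c * N * k) t k) (rhoU N q (c * N * k) t k) (rho_ohU (by omega) G)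
      hes ((card_actU (by omega)).trans hn) hen (by omega)
      (Ax := {p | CountAx F G t p})
      (fun p hp => (countAx_degree hp).trans (by omega))
      (fun p hp => Rd_countAx ⟨0, hq0⟩ G hk2 ht (by nlinarith) hE hp) S hS

end Pool.Agent.W939.PC
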